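import Mathlib

section

namespace Pool.Agent.MP_dd548e_lc

open Language Computability

variable {α : Type}

lemma regular_single (a : α) : Language.IsRegular ({[a]} : Language α) := by
  apply Language.IsRegular.of_finite_range_leftQuotient
  refine (Set.toFinite ({({[a]} : Language α), ({[]} : Language α), (0 : Language α)} :
    Set (Language α))).subset ?_
  rintro _ ⟨x, rfl⟩
  rcases x with _ | ⟨b, x⟩
  · exact Or.inl rfl
  · by_cases h : b = a ∧ x = []
    · obtain ⟨rfl, rfl⟩ := h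
      refine Or.inr (Or.inl ?_)
      ext y
      rw [mem_leftQuotient]
      change [b] ++ y = [b] ↔ y = []
      simp
    · refine Or.inr (Or.inr ?_)
      rw [Set.mem_singleton_iff]
      ext y
      rw [mem_leftQuotient]
      change b :: x ++ y = [a] ↔ y ∈ (0 : Language α)
      simp only [List.cons_append, List.cons.injEq, List.append_eq_nil_iff, Language.notMem_zero,
        iff_false]
      tauto

lemma regular_mul {L M : Language α} (hL : L.IsRegular) (hM : M.IsRegular) :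
    (L * M).IsRegular := by
  apply Language.IsRegular.of_finite_range_leftQuotient
  let Φ : Language α × Set (Language α) → Language α :=
    fun p => {y | y ∈ p.1 * M ∨ ∃ K ∈ p.2, y ∈ K}
  refine ((hL.finite_range_leftQuotient.prod
    hM.finite_range_leftQuotient.finite_subsets).image Φ).subset ?_
  rintro _ ⟨x, rfl⟩
  refine ⟨(L.leftQuotient x, {K | ∃ u v, u ++ v = x ∧ u ∈ L ∧ K = M.leftQuotient v}),
    ⟨⟨x, rfl⟩, ?_⟩, ?_⟩
  · rintro K ⟨u, v, -, -, rfl⟩
    exact ⟨v, rfl⟩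
  · ext y
    rw [mem_leftQuotient, Language.mem_mul]
    change (y ∈ L.leftQuotient x * M ∨ ∃ K ∈ {K | ∃ u v, u ++ v = x ∧ u ∈ L ∧
      K = M.leftQuotient v}, y ∈ K) ↔ _
    rw [Language.mem_mul]
    constructor
    · rintro (⟨a, ha, b, hb, rfl⟩ | ⟨_, ⟨u, v, rfl, hu, rfl⟩, hy⟩)
      · exact ⟨x ++ a, ha, b, hb, by simp⟩
      · exact ⟨u, hu, v ++ y, hy, by simp⟩
    · rintro ⟨a, ha, b, hb, h⟩
      rcases List.append_eq_append_iff.1 h with ⟨c, rfl, rfl⟩ | ⟨c, rfl, rfl⟩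
      · exact Or.inr ⟨_, ⟨a, c, rfl, ha, rfl⟩, hb⟩
      · exact Or.inl ⟨c, ha, b, hb, rfl⟩

lemma kstar_nil (L : Language α) : [] ∈ L∗ := Language.nil_mem_kstar L

lemma kstar_cons {L : Language α} {a b : List α} (ha : a ∈ L) (hb : b ∈ L∗) : a ++ b ∈ L∗ := by
  obtain ⟨S, rfl, hS⟩ := Language.mem_kstar.1 hb
  refine Language.mem_kstar.2 ⟨a :: S, by simp, ?_⟩
  intro y hy
  rcases List.mem_cons.1 hy with rfl | hy
  · exact ha
  · exact hS y hy

lemma kstar_induction {L : Language α} {P : List α → Prop} (h0 : P [])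
    (h1 : ∀ a b, a ∈ L → b ∈ L∗ → P b → P (a ++ b)) : ∀ w ∈ L∗, P w := by
  intro w hw
  obtain ⟨S, rfl, hS⟩ := Language.mem_kstar.1 hw
  clear hw
  induction S with
  | nil => exact h0
  | cons a S ih =>
    have hS' : ∀ y ∈ S, y ∈ L := fun y hy => hS y (List.mem_cons_of_mem _ hy)
    exact h1 a _ (hS a List.mem_cons_self) (Language.mem_kstar.2 ⟨S, rfl, hS'⟩) (ih hS')

lemma kstar_append {L : Language α} {a b : List α} (ha : a ∈ L∗) (hb : b ∈ L∗) : a ++ b ∈ L∗ := by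
  refine kstar_induction (P := fun a => a ++ b ∈ L∗) (by simpa using hb) ?_ a ha
  intro x y hx _ ih
  rw [List.append_assoc]
  exact kstar_cons hx ih

lemma kstar_split {L : Language α} : ∀ w ∈ L∗, ∀ x y, x ++ y = w →
    (x ∈ L∗ ∧ y ∈ L∗) ∨ ∃ u v y1 y2, u ++ v = x ∧ u ∈ L∗ ∧ y1 ++ y2 = y ∧ v ++ y1 ∈ L ∧ y2 ∈ L∗ := by
  refine kstar_induction ?_ ?_
  · intro x y h
    obtain ⟨rfl, rfl⟩ := List.append_eq_nil_iff.1 h
    exact Or.inl ⟨kstar_nil _, kstar_nil _⟩
  · intro a b ha hb ih x y h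
    rcases List.append_eq_append_iff.1 h with ⟨c, rfl, rfl⟩ | ⟨c, rfl, rfl⟩
    · exact Or.inr ⟨[], x, c, b, rfl, kstar_nil _, rfl, ha, hb⟩
    · rcases ih c y rfl with ⟨h1, h2⟩ | ⟨u, v, y1, y2, rfl, h1, rfl, h2, h3⟩
      · exact Or.inl ⟨kstar_cons ha h1, h2⟩
      · exact Or.inr ⟨a ++ u, v, y1, y2, by simp, kstar_cons ha h1, rfl, h2, h3⟩

lemma regular_kstar {L : Language α} (hL : L.IsRegular) : (L∗).IsRegular := by
  apply Language.IsRegular.of_finite_range_leftQuotient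
  let Φ : Prop × Set (Language α) → Language α :=
    fun p => {y | (p.1 ∧ y ∈ L∗) ∨ ∃ K ∈ p.2, y ∈ K * L∗}
  refine (((Set.toFinite (Set.univ : Set Prop)).prod
    hL.finite_range_leftQuotient.finite_subsets).image Φ).subset ?_
  rintro _ ⟨x, rfl⟩
  refine ⟨(x ∈ L∗, {K | ∃ u v, u ++ v = x ∧ u ∈ L∗ ∧ K = L.leftQuotient v}),
    ⟨trivial, ?_⟩, ?_⟩
  · rintro K ⟨u, v, -, -, rfl⟩
    exact ⟨v, rfl⟩
  · ext y
    rw [mem_leftQuotient]
    change ((x ∈ L∗ ∧ y ∈ L∗) ∨ ∃ K ∈ {K | ∃ u v, u ++ v = x ∧ u ∈ L∗ ∧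
      K = L.leftQuotient v}, y ∈ K * L∗) ↔ _
    constructor
    · rintro (⟨h1, h2⟩ | ⟨_, ⟨u, v, rfl, hu, rfl⟩, hy⟩)
      · exact kstar_append h1 h2
      · obtain ⟨a, ha, b, hb, rfl⟩ := Language.mem_mul.1 hy
        have := kstar_append hu (kstar_cons ha hb)
        simpa using this
    · intro h
      rcases kstar_split _ h x y rfl with h | ⟨u, v, y1, y2, h1, h2, h3, h4, h5⟩
      · exact Or.inl h
      · exact Or.inr ⟨_, ⟨u, v, h1, h2, rfl⟩, Language.mem_mul.2 ⟨y1, h4, y2, h5, h3⟩⟩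

end Pool.Agent.MP_dd548e_lc

end

section

namespace Pool.Agent.MP_dd548e_lc

open Language Computability Relation

/-- register contents -/
abbrev Regs := ℕ → ℕ

/-- unit vector -/
def ee (r : ℕ) : Regs := fun i => if i = r then 1 else 0

/-- Operation `o` acts on register `o / 3`: increment, decrement or zero test. -/
def Step (o : ℕ) (v u : Regs) : Prop :=
  (o % 3 = 0 ∧ u = v + ee (o / 3)) ∨ (o % 3 = 1 ∧ v = u + ee (o / 3)) ∨
    (o % 3 = 2 ∧ v (o / 3) = 0 ∧ u = v)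

def Exec : List ℕ → Regs → Regs → Prop
  | [], v, v' => v' = v
  | o :: w, v, v' => ∃ u, Step o v u ∧ Exec w u v'

lemma exec_append (w w' : List ℕ) (v v' : Regs) :
    Exec (w ++ w') v v' ↔ ∃ u, Exec w v u ∧ Exec w' u v' := by
  induction w generalizing v with
  | nil => simp [Exec]
  | cons o w ih =>
    simp only [List.cons_append, Exec, ih]
    constructor
    · rintro ⟨u, h1, t, h2, h3⟩
      exact ⟨t, ⟨u, h1, h2⟩, h3⟩
    · rintro ⟨t, ⟨u, h1, h2⟩, h3⟩
      exact ⟨u, h1, t, h2, h3⟩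

/-- relations computed by nondeterministic counter machines with a regular control -/
def Real (R : Regs → Regs → Prop) : Prop :=
  ∃ L : Language ℕ, L.IsRegular ∧ (∃ M, ∀ w ∈ L, ∀ o ∈ w, o < M) ∧
    ∀ v v', R v v' ↔ ∃ w ∈ L, Exec w v v'

lemma Real.congr {R R' : Regs → Regs → Prop} (h : Real R) (e : ∀ v v', R v v' ↔ R' v v') :
    Real R' := by
  obtain ⟨L, h1, h2, h3⟩ := h
  exact ⟨L, h1, h2, fun v v' => (e v v').symm.trans (h3 v v')⟩

lemma real_step (o : ℕ) : Real (Step o) := by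
  refine ⟨{[o]}, regular_single o, ⟨o + 1, ?_⟩, fun v v' => ⟨fun h => ⟨[o], rfl, v', h, rfl⟩, ?_⟩⟩
  · rintro w rfl o' ho
    rw [List.mem_singleton.1 ho]; omega
  · rintro ⟨w, rfl, u, h, rfl⟩
    exact h

lemma Real.comp {R R' : Regs → Regs → Prop} (h : Real R) (h' : Real R') :
    Real (fun v v' => ∃ u, R v u ∧ R' u v') := by
  obtain ⟨L, h1, ⟨M, h2⟩, h3⟩ := h
  obtain ⟨L', h1', ⟨M', h2'⟩, h3'⟩ := h'
  refine ⟨L * L', regular_mul h1 h1', ⟨max M M', ?_⟩, fun v v' => ⟨?_, ?_⟩⟩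
  · intro w hw o ho
    obtain ⟨a, ha, b, hb, rfl⟩ := Language.mem_mul.1 hw
    rcases List.mem_append.1 ho with k | k
    · exact lt_max_of_lt_left (h2 a ha o k)
    · exact lt_max_of_lt_right (h2' b hb o k)
  · rintro ⟨u, k1, k2⟩
    obtain ⟨a, ha, k1⟩ := (h3 _ _).1 k1
    obtain ⟨b, hb, k2⟩ := (h3' _ _).1 k2
    exact ⟨a ++ b, Language.mem_mul.2 ⟨a, ha, b, hb, rfl⟩, (exec_append _ _ _ _).2 ⟨u, k1, k2⟩⟩
  · rintro ⟨w, hw, k⟩
    obtain ⟨a, ha, b, hb, rfl⟩ := Language.mem_mul.1 hw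
    obtain ⟨u, k1, k2⟩ := (exec_append _ _ _ _).1 k
    exact ⟨u, (h3 _ _).2 ⟨a, ha, k1⟩, (h3' _ _).2 ⟨b, hb, k2⟩⟩

lemma Real.star {R : Regs → Regs → Prop} (h : Real R) : Real (ReflTransGen R) := by
  obtain ⟨L, h1, ⟨M, h2⟩, h3⟩ := h
  refine ⟨L∗, regular_kstar h1, ⟨M, ?_⟩, fun v v' => ⟨?_, ?_⟩⟩
  · refine kstar_induction (by simp) ?_
    intro a b ha _ ih o ho
    rcases List.mem_append.1 ho with k | k
    · exact h2 a ha o k
    · exact ih o k
  · intro k
    induction k using ReflTransGen.head_induction_on with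
    | refl => exact ⟨[], kstar_nil _, rfl⟩
    | head k _ ih =>
      obtain ⟨a, ha, k1⟩ := (h3 _ _).1 k
      obtain ⟨b, hb, k2⟩ := ih
      exact ⟨a ++ b, kstar_cons ha hb, (exec_append _ _ _ _).2 ⟨_, k1, k2⟩⟩
  · rintro ⟨w, hw, k⟩
    revert v
    refine kstar_induction (P := fun w => ∀ v, Exec w v v' → ReflTransGen R v v') ?_ ?_ w hw
    · rintro v rfl; exact ReflTransGen.refl
    · intro a b ha _ ih v k
      obtain ⟨u, k1, k2⟩ := (exec_append _ _ _ _).1 k
      exact ReflTransGen.head ((h3 _ _).2 ⟨a, ha, k1⟩) (ih u k2)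

/-- vector replacement step -/
def VS (a b : Regs) (v u : Regs) : Prop := ∃ t : Regs, v = t + a ∧ u = t + b

lemma real_inc (r : ℕ) : Real (VS 0 (ee r)) := by
  refine (real_step (3 * r)).congr fun v u => ?_
  have h1 : 3 * r % 3 = 0 := by omega
  have h2 : 3 * r / 3 = r := by omega
  simp [Step, VS, h1, h2]

lemma real_dec (r : ℕ) : Real (VS (ee r) 0) := by
  refine (real_step (3 * r + 1)).congr fun v u => ?_
  have h1 : (3 * r + 1) % 3 = 1 := by omega
  have h2 : (3 * r + 1) / 3 = r := by omega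
  simp only [Step, VS, h1, h2, add_zero]
  constructor
  · rintro (h | h | h)
    · simp at h
    · exact ⟨u, h.2, rfl⟩
    · simp at h
  · rintro ⟨t, h, rfl⟩
    exact Or.inr (Or.inl ⟨trivial, h⟩)

lemma real_zero (r : ℕ) : Real (fun v u => v r = 0 ∧ u = v) := by
  refine (real_step (3 * r + 2)).congr fun v u => ?_
  have h1 : (3 * r + 2) % 3 = 2 := by omega
  have h2 : (3 * r + 2) / 3 = r := by omega
  simp [Step, h1, h2]

lemma real_vs_dec {a b : Regs} (r : ℕ) (h : Real (VS a b)) : Real (VS (a + ee r) b) := by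
  refine ((real_dec r).comp h).congr fun v v' => ⟨?_, ?_⟩
  · rintro ⟨u, ⟨t, rfl, rfl⟩, ⟨t', h1, rfl⟩⟩
    refine ⟨t', ?_, rfl⟩
    rw [add_zero] at h1
    rw [h1, add_assoc]
  · rintro ⟨t, rfl, rfl⟩
    exact ⟨t + a, ⟨t + a, by rw [add_assoc], by rw [add_zero]⟩, t, rfl, rfl⟩

lemma real_vs_inc {a b : Regs} (r : ℕ) (h : Real (VS a b)) : Real (VS a (b + ee r)) := by
  refine (h.comp (real_inc r)).congr fun v v' => ⟨?_, ?_⟩
  · rintro ⟨u, ⟨t, rfl, rfl⟩, ⟨t', h1, rfl⟩⟩
    refine ⟨t, rfl, ?_⟩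
    rw [add_zero] at h1
    rw [← h1, add_assoc]
  · rintro ⟨t, rfl, rfl⟩
    exact ⟨t + b, ⟨t, rfl, rfl⟩, t + b, by rw [add_zero], by rw [add_assoc]⟩

lemma star_vs {a b : Regs} (hab : ∀ i, a i = 0 ∨ b i = 0) (v u : Regs) :
    ReflTransGen (VS a b) v u ↔ ∃ k : ℕ, VS (k • a) (k • b) v u := by
  constructor
  · intro h
    induction h with
    | refl => exact ⟨0, v, by simp, by simp⟩
    | tail _ h ih =>
      obtain ⟨k, t, rfl, rfl⟩ := ih
      obtain ⟨t', h1, rfl⟩ := h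
      refine ⟨k + 1, t - a, ?_, ?_⟩
      · funext i
        have := congrFun h1 i
        simp only [Pi.add_apply, Pi.smul_apply, Pi.sub_apply, smul_eq_mul, add_mul, one_mul]
          at this ⊢
        rcases hab i with h | h <;> simp only [h, mul_zero] at this ⊢ <;> omega
      · funext i
        have := congrFun h1 i
        simp only [Pi.add_apply, Pi.smul_apply, Pi.sub_apply, smul_eq_mul, add_mul, one_mul]
          at this ⊢
        rcases hab i with h | h <;> simp only [h, mul_zero] at this ⊢ <;> omega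
  · rintro ⟨k, t, rfl, rfl⟩
    induction k generalizing t with
    | zero => simpa using ReflTransGen.refl
    | succ k ih =>
      refine ReflTransGen.head (b := (t + b) + k • a) ⟨t + k • a, ?_, ?_⟩ ?_
      · rw [succ_nsmul, add_assoc]
      · rw [add_right_comm]
      · have := ih (t + b)
        rwa [succ_nsmul, add_comm (k • b) b, ← add_assoc]

lemma real_havoc (r : ℕ) : Real (fun v u => ∀ i, i ≠ r → u i = v i) := by
  refine ((real_dec r).star.comp (real_inc r).star).congr fun v v' => ?_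
  simp only [star_vs (a := ee r) (b := 0) (fun _ => Or.inr rfl),
    star_vs (a := 0) (b := ee r) (fun _ => Or.inl rfl)]
  constructor
  · rintro ⟨u, ⟨k, t, rfl, rfl⟩, ⟨k', t', h, rfl⟩⟩ i hi
    have := congrFun h i
    simp [ee, hi] at this ⊢
    exact this.symm
  · intro h
    refine ⟨Function.update v r 0, ⟨v r, Function.update v r 0, ?_, by simp⟩,
      ⟨v' r, Function.update v r 0, by simp, ?_⟩⟩
    · funext i
      by_cases hi : i = r <;> simp [ee, hi]
    · funext i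
      by_cases hi : i = r
      · simp [ee, hi]
      · simp [ee, hi, h i hi]

lemma real_id : Real (fun v u => u = v) := by
  refine ((real_inc 0).comp (real_dec 0)).congr fun v u => ⟨?_, ?_⟩
  · rintro ⟨w, ⟨t, rfl, rfl⟩, ⟨t', h1, rfl⟩⟩
    simpa using (add_right_cancel h1).symm
  · rintro rfl
    exact ⟨u + ee 0, ⟨u, by simp, rfl⟩, ⟨u, rfl, by simp⟩⟩

/-- all registers from `s` on are empty -/
def Z (s : ℕ) (v : Regs) : Prop := ∀ i, s ≤ i → v i = 0

/-- `Q` is computed using the registers from `s` on as scratch space -/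
def Act (s : ℕ) (Q : Regs → Regs → Prop) : Prop :=
  (∀ v v', Z s v → Q v v' → Z s v') ∧ ∃ R, Real R ∧ ∀ v, Z s v → ∀ v', R v v' ↔ Q v v'

lemma Act.congr {s : ℕ} {Q Q' : Regs → Regs → Prop} (h : Act s Q)
    (e : ∀ v, Z s v → ∀ v', Q v v' ↔ Q' v v') : Act s Q' := by
  obtain ⟨h1, R, h2, h3⟩ := h
  exact ⟨fun v v' hv k => h1 v v' hv ((e v hv v').2 k), R, h2,
    fun v hv v' => (h3 v hv v').trans (e v hv v')⟩

lemma Real.act {s : ℕ} {Q : Regs → Regs → Prop} (h : Real Q)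
    (hz : ∀ v v', Z s v → Q v v' → Z s v') : Act s Q := ⟨hz, Q, h, fun _ _ _ => Iff.rfl⟩

lemma Act.comp {s : ℕ} {Q Q' : Regs → Regs → Prop} (h : Act s Q) (h' : Act s Q') :
    Act s (fun v v' => ∃ u, Q v u ∧ Q' u v') := by
  obtain ⟨h1, R, h2, h3⟩ := h
  obtain ⟨h1', R', h2', h3'⟩ := h'
  refine ⟨?_, _, h2.comp h2', fun v hv v' => ⟨?_, ?_⟩⟩
  · rintro v v' hv ⟨u, k1, k2⟩
    exact h1' _ _ (h1 _ _ hv k1) k2
  · rintro ⟨u, k1, k2⟩
    have k1' := (h3 v hv u).1 k1
    exact ⟨u, k1', (h3' u (h1 _ _ hv k1') v').1 k2⟩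
  · rintro ⟨u, k1, k2⟩
    exact ⟨u, (h3 v hv u).2 k1, (h3' u (h1 _ _ hv k1) v').2 k2⟩

lemma Act.star {s : ℕ} {Q : Regs → Regs → Prop} (h : Act s Q) : Act s (ReflTransGen Q) := by
  obtain ⟨h1, R, h2, h3⟩ := h
  have hz : ∀ v v', Z s v → ReflTransGen Q v v' → Z s v' := by
    intro v v' hv k
    induction k with
    | refl => exact hv
    | tail _ k ih => exact h1 _ _ ih k
  refine ⟨hz, _, h2.star, fun v hv v' => ⟨fun k => ?_, fun k => ?_⟩⟩
  · induction k with
    | refl => exact ReflTransGen.refl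
    | tail _ k ih => exact ih.tail ((h3 _ (hz _ _ hv ih) _).1 k)
  · induction k with
    | refl => exact ReflTransGen.refl
    | tail k' k ih => exact ih.tail ((h3 _ (hz _ _ hv k') _).2 k)

lemma act_id (s : ℕ) : Act s (fun v u => u = v) :=
  real_id.act (by rintro v _ h rfl; exact h)

lemma act_havoc {s r : ℕ} (hr : r < s) : Act s (fun v u => ∀ i, i ≠ r → u i = v i) :=
  (real_havoc r).act fun v v' hv k i hi => by rw [k i (by omega), hv i hi]

lemma act_inc {s r : ℕ} (hr : r < s) : Act s (fun v u => u = v + ee r) := by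
  refine ((real_inc r).congr fun v u => ?_).act ?_
  · simp [VS]
  · rintro v _ hv rfl i hi
    have : i ≠ r := by omega
    simp [ee, this, hv i hi]

/-- forget the last register after clearing it -/
lemma Act.close {s : ℕ} {Q : Regs → Regs → Prop} (h : Act (s + 1) Q) :
    Act s (fun v v' => ∃ u, Q v u ∧ (∀ i, i ≠ s → v' i = u i) ∧ v' s = 0) := by
  obtain ⟨h1, R, h2, h3⟩ := h
  have zz : ∀ v, Z s v → Z (s + 1) v := fun v hv i hi => hv i (by omega)
  refine ⟨?_, _, h2.comp ((real_havoc s).comp (real_zero s)), fun v hv v' => ⟨?_, ?_⟩⟩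
  · rintro v v' hv ⟨u, k1, k2, k3⟩ i hi
    by_cases e : i = s
    · rw [e, k3]
    · rw [k2 i e]; exact h1 _ _ (zz v hv) k1 i (by omega)
  · rintro ⟨u, k1, t, k2, k3, rfl⟩
    exact ⟨u, (h3 v (zz v hv) u).1 k1, k2, k3⟩
  · rintro ⟨u, k1, k2, k3⟩
    exact ⟨u, (h3 v (zz v hv) u).2 k1, v', k2, k3, rfl⟩

/-- `P` can be tested nondeterministically -/
def Test (s : ℕ) (P : Regs → Prop) : Prop := Act s (fun v v' => P v ∧ v' = v)

lemma Test.congr {s : ℕ} {P P' : Regs → Prop} (h : Test s P) (e : ∀ v, Z s v → (P v ↔ P' v)) :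
    Test s P' := Act.congr h fun v hv v' => by rw [e v hv]

lemma test_true (s : ℕ) : Test s (fun _ => True) := (act_id s).congr fun _ _ _ => by simp

lemma Test.and {s : ℕ} {P P' : Regs → Prop} (h : Test s P) (h' : Test s P') :
    Test s (fun v => P v ∧ P' v) := by
  refine (Act.comp h h').congr fun v _ v' => ⟨?_, ?_⟩
  · rintro ⟨u, ⟨k1, rfl⟩, k2, rfl⟩
    exact ⟨⟨k1, k2⟩, rfl⟩
  · rintro ⟨⟨k1, k2⟩, rfl⟩
    exact ⟨_, ⟨k1, rfl⟩, k2, rfl⟩

lemma test_forall {s n : ℕ} {P : Fin n → Regs → Prop} (h : ∀ i, Test s (P i)) :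
    Test s (fun v => ∀ i, P i v) := by
  induction n with
  | zero => exact (test_true s).congr fun v _ => by simp
  | succ n ih =>
    exact ((h 0).and (ih fun i => h i.succ)).congr fun v _ =>
      (Fin.forall_fin_succ (P := fun i => P i v)).symm

lemma test_zero (s r : ℕ) : Test s (fun v => v r = 0) :=
  (real_zero r).act (by rintro v _ h ⟨-, rfl⟩; exact h)

/-- a relation using one more register which restores all the others yields a test -/
lemma Act.toTest {s : ℕ} {Q : Regs → Regs → Prop} (h : Act (s + 1) Q)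
    (hQ : ∀ v u, Z s v → Q v u → ∀ i, i ≠ s → u i = v i) : Test s (fun v => ∃ u, Q v u) := by
  refine h.close.congr fun v hv v' => ⟨?_, ?_⟩
  · rintro ⟨u, k1, k2, k3⟩
    refine ⟨⟨u, k1⟩, funext fun i => ?_⟩
    by_cases e : i = s
    · rw [e, k3, hv s le_rfl]
    · rw [k2 i e, hQ v u hv k1 i e]
  · rintro ⟨⟨u, k1⟩, rfl⟩
    exact ⟨u, k1, fun i hi => (hQ _ u hv k1 i hi).symm, hv s le_rfl⟩

lemma Test.exists {s : ℕ} {P : Regs → Prop} (h : Test (s + 1) P) :
    Test s (fun v => ∃ z, P (Function.update v s z)) := by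
  refine (((act_havoc (Nat.lt_succ_self s)).comp h).toTest ?_).congr fun v _ => ⟨?_, ?_⟩
  · rintro v _ _ ⟨u, k1, -, rfl⟩
    exact k1
  · rintro ⟨_, u, k1, k2, -⟩
    refine ⟨u s, ?_⟩
    have : Function.update v s (u s) = u := by
      funext i
      by_cases e : i = s
      · simp [e]
      · simp [e, k1 i e]
    rwa [this]
  · rintro ⟨z, k⟩
    exact ⟨_, Function.update v s z, fun i hi => by simp [hi], k, rfl⟩

lemma test_eq {s i j : ℕ} (hi : i < s) (hj : j < s) : Test s (fun v => v i = v j) := by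
  by_cases hij : i = j
  · exact (test_true s).congr fun v _ => by simp [hij]
  have his : i ≠ s := hi.ne
  have hjs : j ≠ s := hj.ne
  have d1 : ∀ x, (ee i + ee j) x = 0 ∨ ee s x = 0 := by
    intro x
    by_cases h : x = s
    · left; simp [ee, h, his.symm, hjs.symm]
    · right; simp [ee, h]
  have r1 : Real (VS (ee i + ee j) (0 + ee s)) := real_vs_inc s (real_vs_dec j (real_dec i))
  have r2 : Real (VS (0 + ee s) (ee i + ee j)) := real_vs_dec s (real_vs_inc j (real_inc i))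
  rw [zero_add] at r1 r2
  refine ⟨by rintro v _ h ⟨-, rfl⟩; exact h, _, r1.star.comp ((real_zero i).comp
    ((real_zero j).comp (r2.star.comp (real_zero s)))), fun v hv v' => ?_⟩
  simp only [star_vs d1, star_vs (fun x => (d1 x).symm)]
  have hs := hv s le_rfl
  constructor
  · rintro ⟨_, ⟨k, t, rfl, rfl⟩, _, ⟨a1, rfl⟩, _, ⟨a2, rfl⟩, _, ⟨k', t', a3, rfl⟩, a4, rfl⟩
    have a5 := congrFun a3 s
    simp [ee, his, hjs, his.symm, hjs.symm, hij, Ne.symm hij] at a1 a2 a4 a5 hs ⊢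
    have : k = k' := by omega
    subst this
    exact ⟨by omega, by rw [add_right_cancel a3]⟩
  · rintro ⟨h, rfl⟩
    have e : v' = Function.update (Function.update v' i 0) j 0 + v' i • (ee i + ee j) := by
      funext x
      by_cases h1 : x = j
      · simp [ee, h1, Ne.symm hij, h]
      · by_cases h2 : x = i
        · simp [ee, h2, hij]
        · simp [ee, h1, h2]
    refine ⟨_, ⟨v' i, _, e, rfl⟩, _, ⟨?_, rfl⟩, _, ⟨?_, rfl⟩, _, ⟨v' i, _, rfl, e⟩, hs, rfl⟩
    · simp [ee, his, hij]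
    · simp [ee, hjs]

end Pool.Agent.MP_dd548e_lc

end

section

namespace Pool.Agent.MP_dd548e_lc

open Relation List.Vector

lemma Act.toTestN {s : ℕ} (n : ℕ) {Q : Regs → Regs → Prop} (h : Act (s + n) Q)
    (hQ : ∀ v u, Z s v → Q v u → ∀ i < s, u i = v i) : Test s (fun v => ∃ u, Q v u) := by
  induction n generalizing Q with
  | zero =>
    have key : ∀ v u, Z s v → Q v u → u = v := by
      intro v u hv k
      funext i
      by_cases hi : i < s
      · exact hQ v u hv k i hi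
      · rw [h.1 v u hv k i (by omega), hv i (by omega)]
    refine Act.congr h fun v hv v' => ⟨fun k => ⟨⟨_, k⟩, key _ _ hv k⟩, ?_⟩
    rintro ⟨⟨u, k⟩, rfl⟩
    rwa [key _ _ hv k] at k
  | succ n ih =>
    refine (ih (Act.close h) ?_).congr fun v _ => ⟨?_, ?_⟩
    · rintro v v' hv ⟨u, k1, k2, -⟩ i hi
      rw [k2 i (by omega), hQ v u hv k1 i hi]
    · rintro ⟨_, u, k, -⟩
      exact ⟨u, k⟩
    · rintro ⟨u, k⟩
      exact ⟨Function.update u (s + n) 0, u, k, fun i hi => by simp [hi], by simp⟩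

lemma Test.existsN {s : ℕ} (n : ℕ) {P : Regs → Prop} (h : Test (s + n) P) :
    Test s (fun v => ∃ u, (∀ i, i < s ∨ s + n ≤ i → u i = v i) ∧ P u) := by
  induction n generalizing P with
  | zero =>
    refine h.congr fun v _ => ⟨fun k => ⟨v, fun _ _ => rfl, k⟩, ?_⟩
    rintro ⟨u, k1, k2⟩
    rwa [show u = v from funext fun i => k1 i (by omega)] at k2
  | succ n ih =>
    refine (ih (Test.exists h)).congr fun v _ => ⟨?_, ?_⟩
    · rintro ⟨u, k1, z, k2⟩
      refine ⟨_, fun i hi => ?_, k2⟩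
      rw [Function.update_of_ne (by omega), k1 i (by omega)]
    · rintro ⟨u, k1, k2⟩
      refine ⟨Function.update u (s + n) (v (s + n)), fun i hi => ?_, u (s + n), by simpa using k2⟩
      by_cases e : i = s + n
      · simp [e]
      · rw [Function.update_of_ne e, k1 i (by omega)]

lemma test_succ {s i j : ℕ} (hi : i < s) (hj : j < s) : Test s (fun v => v i + 1 = v j) := by
  have h1 : Act (s + 1) _ := (act_havoc (Nat.lt_succ_self s)).comp
    (Act.comp (test_eq (i := s) (j := i) (by omega) (by omega))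
      ((act_inc (Nat.lt_succ_self s)).comp (test_eq (i := s) (j := j) (by omega) (by omega))))
  have his : i ≠ s := hi.ne
  have hjs : j ≠ s := hj.ne
  refine (h1.toTest ?_).congr fun v _ => ⟨?_, ?_⟩
  · rintro v _ _ ⟨u, k1, _, ⟨-, rfl⟩, _, rfl, -, rfl⟩ x hx
    simp [ee, hx, k1 x hx]
  · rintro ⟨_, u, k1, _, ⟨k2, rfl⟩, _, rfl, k3, -⟩
    simp [ee, hjs] at k3
    rw [← k1 i his, ← k1 j hjs]
    omega
  · intro k
    refine ⟨_, Function.update v s (v i), fun x hx => by simp [hx], _, ⟨by simp [his], rfl⟩, _, rfl,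
      ?_, rfl⟩
    simp [ee, hjs, k]

/-- the contents of the registers listed by `ρ` -/
def vec {n : ℕ} (ρ : Fin n → ℕ) (v : Regs) : List.Vector ℕ n := List.Vector.ofFn fun j => v (ρ j)

lemma vec_congr {n s : ℕ} {ρ : Fin n → ℕ} (hρ : ∀ j, ρ j < s) {u v : Regs}
    (h : ∀ i < s, u i = v i) : vec ρ u = vec ρ v := by
  unfold vec
  congr 1
  funext j
  exact h _ (hρ j)

lemma vec_cons {n : ℕ} (a : ℕ) (ρ : Fin n → ℕ) (v : Regs) :
    vec (Fin.cons a ρ : Fin (n + 1) → ℕ) v = v a ::ᵥ vec ρ v := rfl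

lemma vec_succ {n : ℕ} (ρ : Fin (n + 1) → ℕ) (v : Regs) :
    vec ρ v = v (ρ 0) ::ᵥ vec (fun j => ρ j.succ) v := rfl

theorem test_primrec {n : ℕ} {f : List.Vector ℕ n → ℕ} (hf : Nat.Primrec' f) :
    ∀ (s : ℕ) (ρ : Fin n → ℕ) (o : ℕ), (∀ j, ρ j < s) → o < s →
      Test s (fun v => f (vec ρ v) = v o) := by
  induction hf with
  | zero => exact fun s ρ o _ _ => (test_zero s o).congr fun v _ => eq_comm
  | succ =>
    intro s ρ o hρ ho
    exact (test_succ (hρ 0) ho).congr fun v _ => by simp [vec]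
  | get i =>
    intro s ρ o hρ ho
    exact (test_eq (hρ i) ho).congr fun v _ => by simp [vec]
  | @comp m n f g _ _ ihf ihg =>
    intro s ρ o hρ ho
    have h1 : Test (s + n) (fun v => ∀ i : Fin n, g i (vec ρ v) = v (s + i)) :=
      test_forall fun i => ihg i _ ρ _ (fun j => (hρ j).trans_le (by omega)) (by omega)
    have h2 := ihf (s + n) (fun i => s + i) o (fun j => by omega) (by omega)
    refine ((h1.and h2).existsN n).congr fun v _ => ⟨?_, ?_⟩
    · rintro ⟨u, k1, k2, k3⟩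
      rw [← vec_congr hρ (fun i hi => k1 i (Or.inl hi)), ← k1 o (Or.inl ho), ← k3]
      simp only [k2]
      rfl
    · intro k
      let u : Regs := fun i => if h : s ≤ i ∧ i < s + n then g ⟨i - s, by omega⟩ (vec ρ v) else v i
      have hu : ∀ i, i < s ∨ s + n ≤ i → u i = v i := fun i hi => dif_neg (by omega)
      have hu2 : ∀ i : Fin n, u (s + i) = g i (vec ρ v) := fun i => by
        simp only [u]
        rw [dif_pos ⟨by omega, by omega⟩]
        simp
      have hu3 : vec ρ u = vec ρ v := vec_congr hρ fun i hi => hu i (Or.inl hi)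
      refine ⟨u, hu, fun i => by rw [hu2, hu3], ?_⟩
      rw [hu o (Or.inl ho), ← k]
      simp only [hu2, vec]
  | @prec n f g _ _ ihf ihg =>
    intro s ρ o hρ ho
    let ρ' : Fin n → ℕ := fun j => ρ j.succ
    have hρ' : ∀ j, ρ' j < s := fun j => hρ _
    let F : List.Vector ℕ n → ℕ → ℕ := fun x y => y.rec (f x) fun y IH => g (y ::ᵥ IH ::ᵥ x)
    have tg := ihg (s + 3) (Fin.cons s (Fin.cons (s + 1) ρ')) (s + 2) (by
      intro j
      refine Fin.cases (by simp) (fun j => ?_) j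
      refine Fin.cases (by simp) (fun j => ?_) j
      have := hρ' j
      simp only [Fin.cons_succ]
      omega) (by omega)
    have body : Act (s + 3) (fun t t' => (∀ i, i < s ∨ s + 3 ≤ i → t' i = t i) ∧ t' s = t s + 1 ∧
        t' (s + 1) = g (t s ::ᵥ t (s + 1) ::ᵥ vec ρ' t) ∧ t' (s + 2) = t' (s + 1)) := by
      refine ((act_havoc (r := s + 2) (by omega)).comp (Act.comp tg
        ((act_havoc (r := s + 1) (by omega)).comp
          (Act.comp (test_eq (i := s + 1) (j := s + 2) (by omega) (by omega))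
            (act_inc (r := s) (by omega)))))).congr fun t _ t' => ⟨?_, ?_⟩
      · rintro ⟨t1, k1, _, ⟨k2, rfl⟩, t3, k3, _, ⟨k4, rfl⟩, rfl⟩
        rw [vec_cons, vec_cons, k1 s (by omega), k1 (s + 1) (by omega),
          vec_congr hρ' (fun i hi => k1 i (by omega))] at k2
        refine ⟨fun i hi => ?_, ?_, ?_, ?_⟩
        · have : i ≠ s := by omega
          simp only [Pi.add_apply, ee, this, if_false, add_zero]
          rw [k3 i (by omega), k1 i (by omega)]
        · simp only [Pi.add_apply, ee, if_true]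
          rw [k3 s (by omega), k1 s (by omega)]
        · simp [ee, k4, k3, k2]
        · simp [ee, k4]
      · rintro ⟨k1, k2, k3, k4⟩
        refine ⟨Function.update t (s + 2) (t' (s + 1)), fun i hi => by simp [hi], _, ⟨?_, rfl⟩,
          Function.update (Function.update t (s + 2) (t' (s + 1))) (s + 1) (t' (s + 1)),
          fun i hi => by simp [hi], _, ⟨by simp, rfl⟩, ?_⟩
        · beta_reduce
          rw [vec_cons, vec_cons, vec_congr hρ' (v := t)
            (fun i hi => Function.update_of_ne (by omega) _ _)]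
          simp [k3]
        · funext i
          by_cases e0 : i = s
          · simp [ee, e0, k2]
          · by_cases e1 : i = s + 1
            · simp [ee, e1]
            · by_cases e2 : i = s + 2
              · simp [ee, e2, k4]
              · simp [ee, e0, e1, e2, k1 i (by omega)]
    have all := (act_havoc (s := s + 3) (r := s + 1) (by omega)).comp
      (Act.comp (ihf (s + 3) ρ' (s + 1) (fun j => (hρ' j).trans_le (by omega)) (by omega))
        (body.star.comp ((test_eq (i := s) (j := ρ 0) (by omega) ((hρ 0).trans_le (by omega))).and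
          (test_eq (i := s + 1) (j := o) (by omega) (by omega)))))
    have inv : ∀ (x : List.Vector ℕ n) (t t' : Regs), vec ρ' t = x → t (s + 1) = F x (t s) →
        ReflTransGen (fun t t' : Regs => (∀ i, i < s ∨ s + 3 ≤ i → t' i = t i) ∧ t' s = t s + 1 ∧
        t' (s + 1) = g (t s ::ᵥ t (s + 1) ::ᵥ vec ρ' t) ∧ t' (s + 2) = t' (s + 1)) t t' →
        (∀ i < s, t' i = t i) ∧ t' (s + 1) = F x (t' s) := by
      intro x t t' h1 h2 k
      induction k with
      | refl => exact ⟨fun _ _ => rfl, h2⟩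
      | tail _ k ih =>
        refine ⟨fun i hi => (k.1 i (Or.inl hi)).trans (ih.1 i hi), ?_⟩
        rw [k.2.2.1, k.2.1, vec_congr hρ' ih.1, h1, ih.2]
    have run : ∀ (x : List.Vector ℕ n) (t : Regs), vec ρ' t = x → t (s + 1) = f x → t s = 0 →
        ∀ y, ∃ t', ReflTransGen (fun t t' : Regs => (∀ i, i < s ∨ s + 3 ≤ i → t' i = t i) ∧
        t' s = t s + 1 ∧ t' (s + 1) = g (t s ::ᵥ t (s + 1) ::ᵥ vec ρ' t) ∧
        t' (s + 2) = t' (s + 1)) t t' ∧ t' s = y := by
      intro x t _ _ h3 y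
      induction y with
      | zero => exact ⟨t, ReflTransGen.refl, h3⟩
      | succ y ih =>
        obtain ⟨t', k1, k2⟩ := ih
        refine ⟨fun i => if i = s then y + 1 else if i = s + 1 ∨ i = s + 2 then
          g (t' s ::ᵥ t' (s + 1) ::ᵥ vec ρ' t') else t' i, k1.tail ⟨fun i hi => ?_, ?_, ?_, ?_⟩, ?_⟩
        · rw [if_neg (by omega), if_neg (by omega)]
        · simp [k2]
        · simp
        · simp
        · simp
    refine (all.toTestN 3 ?_).congr fun v hv => ⟨?_, ?_⟩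
    · rintro v t' hv ⟨_, k1, t, ⟨k2, rfl⟩, _, k3, -, rfl⟩ i hi
      have k0 : t s = 0 := by rw [k1 s (by omega), hv s le_rfl]
      rw [(inv _ _ _ rfl (by rw [k0, ← k2]; rfl) k3).1 i hi, k1 i (by omega)]
    · rintro ⟨_, _, k1, t, ⟨k2, rfl⟩, t', k3, ⟨k4, k5⟩, -⟩
      have k0 : t s = 0 := by rw [k1 s (by omega), hv s le_rfl]
      obtain ⟨i1, i2⟩ := inv _ _ _ rfl (by rw [k0, ← k2]; rfl) k3
      have e : ∀ i < s, t' i = v i := fun i hi => (i1 i hi).trans (k1 i (by omega))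
      change F (vec ρ' v) (v (ρ 0)) = v o
      rw [← e o ho, ← k5, i2, k4, e _ (hρ 0), vec_congr hρ' (fun i hi => k1 i (by omega))]
    · intro k
      change F (vec ρ' v) (v (ρ 0)) = v o at k
      have e0 : vec ρ' (Function.update v (s + 1) (f (vec ρ' v))) = vec ρ' v :=
        vec_congr hρ' fun i hi => Function.update_of_ne (by omega) _ _
      have e1 : Function.update v (s + 1) (f (vec ρ' v)) s = 0 := by simp [hv s le_rfl]
      obtain ⟨t', k1, k2⟩ := run _ _ e0 (by simp) e1 (v (ρ 0))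
      obtain ⟨i1, i2⟩ := inv _ _ _ e0 (by rw [e1]; simp [F]) k1
      have e : ∀ i < s, t' i = v i := fun i hi =>
        (i1 i hi).trans (Function.update_of_ne (by omega) _ _)
      refine ⟨t', _, fun i hi => Function.update_of_ne hi _ _, _,
        ⟨by beta_reduce; rw [e0]; simp, rfl⟩, t', k1,
        ⟨by rw [k2, e _ (hρ 0)], ?_⟩, rfl⟩
      rw [i2, k2, e o ho, ← k]

open Nat.Partrec Nat.Partrec.Code in
/-- a counter machine with regular control whose halting set is not computable -/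
theorem exists_machine : ∃ (L : Language ℕ) (M : ℕ), L.IsRegular ∧ (∀ w ∈ L, ∀ o ∈ w, o < M) ∧
    ¬ ComputablePred fun n : ℕ => ∃ w ∈ L, ∃ v', Exec w (n • ee 0) v' := by
  have hg : Primrec₂ fun n k : ℕ =>
      cond (evaln k (Denumerable.ofNat Code n) 0).isSome 0 1 := by
    refine Primrec.cond (Primrec.option_isSome.comp (primrec_evaln.comp
      ((Primrec.snd.pair ((Primrec.ofNat Code).comp Primrec.fst)).pair (Primrec.const 0))))
      (Primrec.const 0) (Primrec.const 1)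
  have h1 := test_primrec (Nat.Primrec'.prim_iff₂.2 hg) 3 ![0, 2] 1
    (by intro j; fin_cases j <;> simp) (by omega)
  obtain ⟨-, R, ⟨L, hL, ⟨M, hM⟩, hR⟩, h2⟩ := Test.exists h1
  refine ⟨L, M, hL, hM, fun hc => ComputablePred.halting_problem 0 ?_⟩
  have hz : ∀ n : ℕ, Z 2 (n • ee 0) := fun n i hi => by
    have : i ≠ 0 := by omega
    simp [ee, this]
  have key : ∀ c : Code, (∃ w ∈ L, ∃ v', Exec w (Encodable.encode c • ee 0) v') ↔
      (eval c 0).Dom := by
    intro c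
    have : (∃ w ∈ L, ∃ v', Exec w (Encodable.encode c • ee 0) v') ↔
        ∃ v', R (Encodable.encode c • ee 0) v' := by
      simp only [hR]
      tauto
    rw [this]
    simp only [h2 _ (hz _), exists_and_left, exists_eq, and_true]
    simp [vec, ee, Part.dom_iff_mem, evaln_complete]
    constructor
    · rintro ⟨z, hz⟩
      cases e : evaln z c 0 with
      | none => simp [e] at hz
      | some y => exact ⟨y, z, e⟩
    · rintro ⟨y, z, e⟩
      exact ⟨z, by simp [e]⟩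
  obtain ⟨inst, hc⟩ := hc
  refine ⟨fun c => decidable_of_iff _ (key c), ?_⟩
  exact (hc.comp Computable.encode).of_eq fun c => decide_eq_decide.2 (key c)

end Pool.Agent.MP_dd548e_lc

end

section

namespace Pool.Agent.MP_dd548e_lc

/-- acceptance by a blind one-counter automaton: a transition with weight `t` adds `t - 1` -/
inductive Acc {Q : Type} (δ : Q → ℕ → ℕ → Q → Prop) (F : Q → Prop) : Q → List ℕ → ℤ → Prop
  | nil (q : Q) : F q → Acc δ F q [] 0
  | cons (q : Q) (o t : ℕ) (q' : Q) (w : List ℕ) (z : ℤ) :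
      δ q o t q' → Acc δ F q' w (z + t - 1) → Acc δ F q (o :: w) z

/-- states of the error detecting automaton -/
inductive St (σ : Type) (m : ℕ) : Type
  | dfa (s : σ) : St σ m
  | cntA (r : Fin m) : St σ m
  | cntB (r : Fin m) : St σ m
  | wait (r : Fin m) : St σ m
  | done : St σ m

instance {σ : Type} [Finite σ] (m : ℕ) : Finite (St σ m) :=
  Finite.of_surjective (fun x : σ ⊕ Fin m ⊕ Fin m ⊕ Fin m ⊕ Unit => match x with
    | .inl s => St.dfa s
    | .inr (.inl r) => St.cntA r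
    | .inr (.inr (.inl r)) => St.cntB r
    | .inr (.inr (.inr (.inl r))) => St.wait r
    | .inr (.inr (.inr (.inr _))) => St.done) (by
      rintro (s | r | r | r | _)
      exacts [⟨.inl s, rfl⟩, ⟨.inr (.inl r), rfl⟩, ⟨.inr (.inr (.inl r)), rfl⟩,
        ⟨.inr (.inr (.inr (.inl r))), rfl⟩, ⟨.inr (.inr (.inr (.inr ()))), rfl⟩])

def eff (r o : ℕ) : ℕ := if o = 3 * r then 2 else if o = 3 * r + 1 then 0 else 1

lemma step_eff {o : ℕ} {v u : Regs} (h : Step o v u) (r : ℕ) : (u r : ℤ) = v r + eff r o - 1 := by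
  unfold eff
  rcases h with ⟨h, rfl⟩ | ⟨h, rfl⟩ | ⟨h, -, rfl⟩
  · simp only [Pi.add_apply, ee]
    split_ifs <;> omega
  · simp only [Pi.add_apply, ee]
    split_ifs <;> omega
  · split_ifs <;> omega

variable {σ : Type} {m : ℕ}

inductive Tr (D : DFA ℕ σ) : St σ m → ℕ → ℕ → St σ m → Prop
  | dfa (s : σ) (o : ℕ) : Tr D (.dfa s) o 1 (.dfa (D.step s o))
  | cntA (r : Fin m) (o : ℕ) : Tr D (.cntA r) o (eff r o) (.cntA r)
  | exitA (r : Fin m) : Tr D (.cntA r) (3 * r + 1) 1 .done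
  | cntB (r : Fin m) (o : ℕ) : Tr D (.cntB r) o (eff r o) (.cntB r)
  | exitB (r : Fin m) : Tr D (.cntB r) (3 * r + 2) 1 .done
  | wait (r : Fin m) (o : ℕ) : Tr D (.wait r) o 1 (.wait r)
  | start (r : Fin m) : Tr D (.wait r) (3 * r) 1 (.cntB r)
  | done (o : ℕ) : Tr D .done o 1 .done

def Fin' (D : DFA ℕ σ) : St σ m → Prop
  | .dfa s => s ∉ D.accept
  | .done => True
  | _ => False

variable (D : DFA ℕ σ)

lemma tr_le {q q' : St σ m} {o t : ℕ} (h : Tr D q o t q') : t ≤ 2 := by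
  cases h <;> first | omega | (unfold eff; split_ifs <;> omega)

lemma acc_done (w : List ℕ) (z : ℤ) : Acc (Tr D) (Fin' D) (St.done : St σ m) w z ↔ z = 0 := by
  induction w generalizing z with
  | nil =>
    constructor
    · intro h; cases h; rfl
    · rintro rfl; exact Acc.nil _ trivial
  | cons o w ih =>
    constructor
    · intro h
      cases h with
      | cons _ _ t q' _ _ h1 h2 =>
        cases h1
        simpa using (ih _).1 h2
    · rintro rfl
      exact Acc.cons _ _ _ _ _ _ (Tr.done o) ((ih _).2 (by simp))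

lemma acc_dfa (s : σ) (w : List ℕ) :
    Acc (Tr D) (Fin' D) (St.dfa s : St σ m) w 0 ↔ D.evalFrom s w ∉ D.accept := by
  induction w generalizing s with
  | nil =>
    constructor
    · intro h; cases h; assumption
    · intro h; exact Acc.nil _ h
  | cons o w ih =>
    constructor
    · intro h
      cases h with
      | cons _ _ t q' _ _ h1 h2 =>
        cases h1
        exact (ih _).1 (by simpa using h2)
    · intro h
      exact Acc.cons _ _ _ _ _ _ (Tr.dfa s o) (by simpa using (ih _).2 h)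

lemma sound (w : List ℕ) (v v' : Regs) (h : Exec w v v') (r : Fin m) :
    ¬ Acc (Tr D) (Fin' D) (St.cntA r) w (v r) ∧
    (∀ z : ℤ, z < v r → ¬ Acc (Tr D) (Fin' D) (St.cntB r) w z) ∧
    ¬ Acc (Tr D) (Fin' D) (St.wait r) w 0 := by
  induction w generalizing v with
  | nil => exact ⟨fun k => by generalize (v r : ℤ) = z at k; cases k; assumption,
      fun z _ k => by cases k; assumption, fun k => by cases k; assumption⟩
  | cons o w ih =>
    obtain ⟨u, h1, h2⟩ := h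
    obtain ⟨i1, i2, i3⟩ := ih u h2
    have e := step_eff h1 r
    refine ⟨fun k => ?_, fun z hz k => ?_, fun k => ?_⟩
    · cases k with
      | cons _ _ t q' _ _ k1 k2 =>
        cases k1 with
        | cntA => exact i1 (e ▸ k2)
        | exitA =>
          rw [acc_done] at k2
          simp only [eff] at e
          split_ifs at e <;> omega
    · cases k with
      | cons _ _ t q' _ _ k1 k2 =>
        cases k1 with
        | cntB => exact i2 _ (by omega) k2
        | exitB =>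
          rw [acc_done] at k2
          rcases h1 with ⟨h, -⟩ | ⟨h, -⟩ | ⟨-, h, -⟩
          · omega
          · omega
          · rw [show (3 * r.val + 2) / 3 = r by omega] at h
            omega
    · cases k with
      | cons _ _ t q' _ _ k1 k2 =>
        cases k1 with
        | wait => exact i3 (by simpa using k2)
        | start => exact i2 _ (by simp [eff] at e; omega) k2

lemma complete (w : List ℕ) (hw : ∀ o ∈ w, o < m) (v : Regs) (h : ¬ ∃ v', Exec w v v') :
    ∃ r : Fin m, Acc (Tr D) (Fin' D) (St.cntA r) w (v r) ∨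
      (∃ z : ℕ, z < v r ∧ Acc (Tr D) (Fin' D) (St.cntB r) w z) ∨
      Acc (Tr D) (Fin' D) (St.wait r) w 0 := by
  induction w generalizing v with
  | nil => exact absurd ⟨v, rfl⟩ h
  | cons o w ih =>
    by_cases hs : ∃ u, Step o v u
    · obtain ⟨u, hu⟩ := hs
      obtain ⟨r, k⟩ := ih (fun o ho => hw o (List.mem_cons_of_mem _ ho)) u
        fun ⟨v', k⟩ => h ⟨v', u, hu, k⟩
      have e := step_eff hu r
      refine ⟨r, ?_⟩
      rcases k with k | ⟨z, hz, k⟩ | k
      · exact Or.inl (Acc.cons _ _ _ _ _ _ (Tr.cntA r o) (e ▸ k))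
      · by_cases h0 : o = 3 * r ∧ z = 0
        · obtain ⟨rfl, rfl⟩ := h0
          exact Or.inr (Or.inr (Acc.cons _ _ _ _ _ _ (Tr.start r) (by simpa using k)))
        · have h3 : eff r o ≤ z + 1 := by unfold eff; split_ifs <;> omega
          refine Or.inr (Or.inl ⟨z + 1 - eff r o, by omega,
            Acc.cons _ _ _ _ _ _ (Tr.cntB r o) ?_⟩)
          rwa [show ((z + 1 - eff r o : ℕ) : ℤ) + eff r o - 1 = z by omega]
      · exact Or.inr (Or.inr (Acc.cons _ _ _ _ _ _ (Tr.wait r o) (by simpa using k)))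
    · have ho : o / 3 < m := lt_of_le_of_lt (Nat.div_le_self _ _) (hw o List.mem_cons_self)
      refine ⟨⟨o / 3, ho⟩, ?_⟩
      have h3 : o % 3 = 0 ∨ o % 3 = 1 ∨ o % 3 = 2 := by omega
      rcases h3 with h3 | h3 | h3
      · exact absurd ⟨_, Or.inl ⟨h3, rfl⟩⟩ hs
      · have h0 : v (o / 3) = 0 := by
          by_contra h0
          refine hs ⟨v - ee (o / 3), Or.inr (Or.inl ⟨h3, funext fun i => ?_⟩)⟩
          simp only [Pi.add_apply, Pi.sub_apply, ee]
          split_ifs with hi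
          · rw [hi]; omega
          · omega
        have := Tr.exitA (D := D) ⟨o / 3, ho⟩
        rw [show 3 * (o / 3) + 1 = o by omega] at this
        exact Or.inl (Acc.cons _ _ _ _ _ _ this ((acc_done D _ _).2 (by simp [h0])))
      · have h0 : v (o / 3) ≠ 0 := fun h0 => hs ⟨v, Or.inr (Or.inr ⟨h3, h0, rfl⟩)⟩
        have := Tr.exitB (D := D) ⟨o / 3, ho⟩
        rw [show 3 * (o / 3) + 2 = o by omega] at this
        exact Or.inr (Or.inl ⟨0, Nat.pos_of_ne_zero h0,
          Acc.cons _ _ _ _ _ _ this ((acc_done D _ _).2 (by simp))⟩)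

/-- a fixed weighted automaton whose universality, as a function of the initial weight,
is not computable -/
theorem exists_automaton : ∃ (Q : Type) (_ : Finite Q) (δ : Q → ℕ → ℕ → Q → Prop) (F : Q → Prop)
    (M : ℕ) (I : Q → Prop) (qA qB : Q), 0 < M ∧ (∀ q o t q', δ q o t q' → t ≤ 2) ∧
    ¬ ComputablePred fun n : ℕ => ∃ w : List ℕ, (∀ o ∈ w, o < M) ∧
      ¬ ((∃ q, I q ∧ Acc δ F q w 0) ∨ Acc δ F qA w n ∨ ∃ z : ℕ, z < n ∧ Acc δ F qB w z) := by
  obtain ⟨L, M, ⟨σ, _, D, rfl⟩, hM, hc⟩ := exists_machine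
  refine ⟨St σ (M + 1), inferInstance, Tr D, Fin' D, M + 1,
    fun q => q = .dfa D.start ∨ (∃ r, r ≠ 0 ∧ q = .cntA r) ∨ ∃ r, q = .wait r,
    .cntA 0, .cntB 0, Nat.succ_pos _, fun _ _ _ _ h => tr_le D h, ?_⟩
  convert hc using 3 with n
  constructor
  · rintro ⟨w, hw, h⟩
    simp only [not_or, not_exists, not_and] at h
    obtain ⟨h1, h2, h3⟩ := h
    refine ⟨w, ?_, ?_⟩
    · have := h1 _ (Or.inl rfl)
      rw [acc_dfa, not_not] at this
      exact this
    · by_contra hn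
      obtain ⟨r, k | ⟨z, hz, k⟩ | k⟩ := complete D w hw _ hn
      · by_cases hr : r = 0
        · subst hr
          exact h2 (by simpa [ee] using k)
        · have hr' : r.val ≠ 0 := fun e => hr (Fin.ext e)
          exact h1 _ (Or.inr (Or.inl ⟨r, hr, rfl⟩)) (by simpa [ee, hr'] using k)
      · by_cases hr : r = 0
        · subst hr
          exact h3 z (by simpa [ee] using hz) k
        · have hr' : r.val ≠ 0 := fun e => hr (Fin.ext e)
          simp [ee, hr'] at hz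
      · exact h1 _ (Or.inr (Or.inr ⟨r, rfl⟩)) k
  · rintro ⟨w, hw, v', h⟩
    refine ⟨w, fun o ho => (hM w hw o ho).trans (Nat.lt_succ_self _), ?_⟩
    rintro (⟨q, rfl | ⟨r, hr, rfl⟩ | ⟨r, rfl⟩, k⟩ | k | ⟨z, hz, k⟩)
    · exact (acc_dfa D _ _).1 k hw
    · have hr' : r.val ≠ 0 := fun e => hr (Fin.ext e)
      exact (sound D w _ _ h r).1 (by simpa [ee, hr'] using k)
    · exact (sound D w _ _ h r).2.2 k
    · refine (sound D w _ _ h (0 : Fin (M + 1))).1 ?_
      rwa [show (n • ee 0) (0 : Fin (M + 1)) = n by simp [ee]]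
    · exact (sound D w _ _ h 0).2.1 z (by simpa [ee] using hz) k

end Pool.Agent.MP_dd548e_lc

end

section

namespace Pool.Agent.MP_dd548e_lc

open List

/-- the block `x^N y` -/
def blk (N : ℕ) : List ℕ := replicate N 2 ++ [3]

/-- powers of the block -/
def pw (N : ℕ) : ℕ → List ℕ
  | 0 => []
  | k + 1 => blk N ++ pw N k

lemma pw_add (N a b : ℕ) : pw N (a + b) = pw N a ++ pw N b := by
  induction a with
  | zero => simp [pw]
  | succ a ih => rw [Nat.succ_add, pw, pw, ih, append_assoc]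

lemma pw_one (N : ℕ) : pw N 1 = blk N := by simp [pw]

lemma blk_pw (N a : ℕ) (u : List ℕ) : blk N ++ (pw N a ++ u) = pw N a ++ (blk N ++ u) := by
  rw [← append_assoc, ← append_assoc, ← pw_one, ← pw_add, ← pw_add, add_comm]

lemma rep_inj (a b : ℕ) (u u' : List ℕ) (h : replicate a 2 ++ 3 :: u = replicate b 2 ++ 3 :: u') :
    a = b ∧ u = u' := by
  induction a generalizing b with
  | zero => cases b <;> simp_all [replicate_succ]
  | succ a ih =>
    cases b with
    | zero => simp [replicate_succ] at h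
    | succ b =>
      simp only [replicate_succ, cons_append, cons.injEq, true_and] at h
      exact ⟨by rw [(ih b h).1], (ih b h).2⟩

lemma strip {N a m : ℕ} {u : List ℕ} (h : replicate a 2 ++ 3 :: u = pw N m) :
    ∃ m', m = m' + 1 ∧ a = N ∧ u = pw N m' := by
  cases m with
  | zero => simp [pw] at h
  | succ m =>
    rw [pw, blk, append_assoc, singleton_append] at h
    exact ⟨m, rfl, rep_inj _ _ _ _ h⟩

lemma strip_pw {N t m : ℕ} {u : List ℕ} (h : pw N t ++ u = pw N m) :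
    ∃ m', m = t + m' ∧ u = pw N m' := by
  induction t generalizing m with
  | zero => exact ⟨m, by simp, h⟩
  | succ t ih =>
    rw [pw, blk, append_assoc, append_assoc, singleton_append] at h
    obtain ⟨m', rfl, -, h⟩ := strip h
    obtain ⟨m'', rfl, h'⟩ := ih h
    exact ⟨m'', by omega, h'⟩

lemma pw_eq_nil {N m : ℕ} (h : [] = pw N m) : m = 0 := by
  cases m with
  | zero => rfl
  | succ m => simp [pw, blk] at h

lemma pw_letters {N m : ℕ} : ∀ l ∈ pw N m, l = 2 ∨ l = 3 := by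
  induction m with
  | zero => simp [pw]
  | succ m ih =>
    intro l hl
    simp only [pw, blk, mem_append, mem_replicate, mem_singleton] at hl
    rcases hl with (h | h) | h
    exacts [Or.inl h.2, Or.inr h, ih l h]

/-- the data of a weighted automaton with numbered states -/
structure WA (Q : Type) where
  δ : Q → ℕ → ℕ → Q → Prop
  F : Q → Prop
  N : ℕ
  idx : Q → ℕ
  inj : Function.Injective idx
  pos : ∀ q, 0 < idx q
  le : ∀ q, idx q ≤ N

namespace WA

variable {Q : Type} (A : WA Q)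

def al (q : Q) : List ℕ := replicate (A.idx q) 2
def be (q : Q) : List ℕ := replicate (A.N - A.idx q) 2 ++ [3]

lemma al_be (q : Q) : A.al q ++ A.be q = blk A.N := by
  rw [al, be, ← append_assoc, replicate_append_replicate, Nat.add_sub_cancel' (A.le q), blk]

def U0 (o : ℕ) (u : List ℕ) : Prop := ∃ q t q', A.δ q o t q' ∧ u = A.be q ++ (pw A.N t ++ A.al q')
def B (o : ℕ) (u : List ℕ) : Prop :=
  A.U0 o u ∨ (∃ u0, A.U0 o u0 ∧ u = blk A.N ++ u0) ∨ u = pw A.N 2
def C0 (u : List ℕ) : Prop := ∃ q, A.F q ∧ u = A.be q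
def C (u : List ℕ) : Prop := A.C0 u ∨ (∃ u0, A.C0 u0 ∧ u = blk A.N ++ u0) ∨ u = blk A.N

def Tail : List ℕ → List ℕ → Prop
  | [], u => A.C u
  | o :: w, u => ∃ b r, A.B o b ∧ Tail w r ∧ u = b ++ r

lemma tail_pw (w : List ℕ) : A.Tail w (pw A.N (2 * w.length + 1)) := by
  induction w with
  | nil => exact Or.inr (Or.inr (pw_one _))
  | cons o w ih =>
    exact ⟨_, _, Or.inr (Or.inr rfl), ih, by rw [← pw_add, length_cons]; congr 1; omega⟩

lemma tail_shift {w u : List ℕ} (h : A.Tail w u) : u = pw A.N (2 * w.length + 1) ∨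
    A.Tail w (blk A.N ++ u) ∨ ∃ u', A.Tail w u' ∧ u = blk A.N ++ u' := by
  induction w generalizing u with
  | nil =>
    rcases h with h | ⟨u0, h, rfl⟩ | rfl
    · exact Or.inr (Or.inl (Or.inr (Or.inl ⟨u, h, rfl⟩)))
    · exact Or.inr (Or.inr ⟨u0, Or.inl h, rfl⟩)
    · exact Or.inl (pw_one _).symm
  | cons o w ih =>
    obtain ⟨b, r, hb, hr, rfl⟩ := h
    rcases hb with h | ⟨u0, h, rfl⟩ | rfl
    · exact Or.inr (Or.inl ⟨_, r, Or.inr (Or.inl ⟨b, h, rfl⟩), hr, (append_assoc _ _ _).symm⟩)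
    · exact Or.inr (Or.inr ⟨u0 ++ r, ⟨u0, r, Or.inl h, hr, rfl⟩, append_assoc _ _ _⟩)
    · rcases ih hr with rfl | k | ⟨u', k, rfl⟩
      · exact Or.inl (by rw [← pw_add, length_cons]; congr 1; omega)
      · exact Or.inr (Or.inl ⟨_, _, Or.inr (Or.inr rfl), k, blk_pw _ _ _⟩)
      · exact Or.inr (Or.inr ⟨_, ⟨_, _, Or.inr (Or.inr rfl), k, rfl⟩, (blk_pw _ _ _).symm⟩)

lemma tail_of_acc {q : Q} {w : List ℕ} {z : ℤ} (h : Acc A.δ A.F q w z) :
    ∃ (m : ℕ) (u : List ℕ), m + z = 2 * w.length + 1 ∧ A.Tail w u ∧ A.al q ++ u = pw A.N m := by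
  induction h with
  | nil q hq => exact ⟨1, A.be q, by simp, Or.inl ⟨q, hq, rfl⟩, by rw [al_be, pw_one]⟩
  | cons q o t q' w z h _ ih =>
    obtain ⟨m, u, k1, k2, k3⟩ := ih
    refine ⟨1 + (t + m), _, by simp only [length_cons]; push_cast; omega,
      ⟨_, u, Or.inl ⟨q, t, q', h, rfl⟩, k2, rfl⟩, ?_⟩
    rw [pw_add, pw_add, pw_one, ← k3, ← A.al_be q]
    simp only [append_assoc]

lemma decode {w u : List ℕ} (h : A.Tail w u) {j m : ℕ} (e : replicate j 2 ++ u = pw A.N m) :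
    (j = 0 ∧ m = 2 * w.length + 1) ∨
      ∃ q, j = A.idx q ∧ Acc A.δ A.F q w (2 * w.length + 1 - m) := by
  have hbe : ∀ (q : Q) (j m : ℕ) (r : List ℕ), replicate j 2 ++ (A.be q ++ r) = pw A.N m →
      j = A.idx q ∧ ∃ m', m = m' + 1 ∧ r = pw A.N m' := by
    intro q j m r e
    rw [be, append_assoc, ← append_assoc, replicate_append_replicate, singleton_append] at e
    obtain ⟨m', h1, h2, h3⟩ := strip e
    have := A.le q
    exact ⟨by omega, m', h1, h3⟩
  have hblk : ∀ (j m : ℕ) (r : List ℕ), replicate j 2 ++ (blk A.N ++ r) = pw A.N m →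
      j = 0 ∧ ∃ m', m = m' + 1 ∧ r = pw A.N m' := by
    intro j m r e
    rw [blk, append_assoc, ← append_assoc, replicate_append_replicate, singleton_append] at e
    obtain ⟨m', h1, h2, h3⟩ := strip e
    exact ⟨by omega, m', h1, h3⟩
  induction w generalizing u j m with
  | nil =>
    rcases h with ⟨q, hq, rfl⟩ | ⟨_, ⟨q, hq, rfl⟩, rfl⟩ | rfl
    · obtain ⟨h1, m', rfl, h2⟩ := hbe q j m [] (by simpa using e)
      obtain rfl := pw_eq_nil h2
      exact Or.inr ⟨q, h1, by simpa using Acc.nil q hq⟩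
    · obtain ⟨-, m', -, h2⟩ := hblk _ _ _ e
      exact absurd (hbe q 0 m' [] (by simpa using h2)).1 (A.pos q).ne
    · obtain ⟨h1, m', rfl, h2⟩ := hblk j m [] (by simpa using e)
      obtain rfl := pw_eq_nil h2
      exact Or.inl ⟨h1, rfl⟩
  | cons o w ih =>
    obtain ⟨b, r, hb, hr, rfl⟩ := h
    rcases hb with ⟨q, t, q', hq, rfl⟩ | ⟨_, ⟨q, t, q', hq, rfl⟩, rfl⟩ | rfl
    · rw [append_assoc] at e
      obtain ⟨h1, m', rfl, h2⟩ := hbe _ _ _ _ e
      rw [append_assoc] at h2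
      obtain ⟨m'', rfl, h3⟩ := strip_pw h2
      rcases ih hr h3 with k | ⟨q'', k1, k2⟩
      · exact absurd k.1 (A.pos q').ne'
      · obtain rfl := A.inj k1
        refine Or.inr ⟨q, h1, Acc.cons _ _ _ _ _ _ hq ?_⟩
        convert k2 using 1
        simp only [length_cons]; push_cast; omega
    · rw [append_assoc] at e
      obtain ⟨-, m', -, h2⟩ := hblk _ _ _ e
      rw [append_assoc] at h2
      exact absurd (hbe q 0 m' _ (by simpa using h2)).1 (A.pos q).ne
    · rw [pw, append_assoc] at e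
      obtain ⟨h1, m', rfl, h2⟩ := hblk _ _ _ e
      obtain ⟨m'', rfl, h3⟩ := strip_pw h2
      rcases ih hr (j := 0) h3 with k | ⟨q'', k1, -⟩
      · exact Or.inl ⟨h1, by rw [length_cons]; omega⟩
      · exact absurd k1 (A.pos q'').ne

lemma al_letters (q : Q) : ∀ l ∈ A.al q, l = 2 ∨ l = 3 := fun _ h => Or.inl (mem_replicate.1 h).2

lemma be_letters (q : Q) : ∀ l ∈ A.be q, l = 2 ∨ l = 3 := by
  intro l hl
  simp only [be, mem_append, mem_replicate, mem_singleton] at hl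
  exact hl.imp_left fun h => h.2

lemma blk_letters : ∀ l ∈ blk A.N, l = 2 ∨ l = 3 := by rw [← pw_one]; exact pw_letters

lemma B_letters {o : ℕ} {u : List ℕ} (h : A.B o u) : ∀ l ∈ u, l = 2 ∨ l = 3 := by
  have h0 : ∀ u, A.U0 o u → ∀ l ∈ u, l = 2 ∨ l = 3 := by
    rintro _ ⟨q, t, q', -, rfl⟩
    exact forall_mem_append.2 ⟨A.be_letters q, forall_mem_append.2 ⟨pw_letters, A.al_letters q'⟩⟩
  rcases h with h | ⟨u0, h, rfl⟩ | rfl
  · exact h0 _ h
  · exact forall_mem_append.2 ⟨A.blk_letters, h0 _ h⟩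
  · exact pw_letters

lemma C_letters {u : List ℕ} (h : A.C u) : ∀ l ∈ u, l = 2 ∨ l = 3 := by
  rcases h with ⟨q, -, rfl⟩ | ⟨_, ⟨q, -, rfl⟩, rfl⟩ | rfl
  · exact A.be_letters q
  · exact forall_mem_append.2 ⟨A.blk_letters, A.be_letters q⟩
  · exact A.blk_letters

lemma tail_letters {w u : List ℕ} (h : A.Tail w u) : ∀ l ∈ u, l = 2 ∨ l = 3 := by
  induction w generalizing u with
  | nil => exact A.C_letters h
  | cons o w ih =>
    obtain ⟨b, r, hb, hr, rfl⟩ := h
    exact forall_mem_append.2 ⟨A.B_letters hb, ih hr⟩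

/-- the start words of the second system, `J` being the set of initial configurations -/
def S2 (J : Q → ℕ → Prop) (u : List ℕ) : Prop :=
  u = [] ∨ u = pw A.N 2 ∨ ∃ q z, J q z ∧ u = pw A.N (z + 1) ++ A.al q

/-- the start words of the first system -/
def S1 (J : Q → ℕ → Prop) (u : List ℕ) : Prop := A.S2 J u ∨ u = blk A.N

def Full (S : List ℕ → Prop) (w u : List ℕ) : Prop := ∃ a r, S a ∧ A.Tail w r ∧ u = a ++ r

lemma S1_letters {J : Q → ℕ → Prop} {u : List ℕ} (h : A.S1 J u) : ∀ l ∈ u, l = 2 ∨ l = 3 := by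
  rcases h with (rfl | rfl | ⟨q, z, -, rfl⟩) | rfl
  · simp
  · exact pw_letters
  · exact forall_mem_append.2 ⟨pw_letters, A.al_letters q⟩
  · exact A.blk_letters

lemma full_iff {J : Q → ℕ → Prop} {w : List ℕ} (h : ∃ q z, J q z ∧ Acc A.δ A.F q w z)
    (u : List ℕ) : A.Full (A.S1 J) w u ↔ A.Full (A.S2 J) w u := by
  refine ⟨?_, fun ⟨a, r, h1, h2⟩ => ⟨a, r, Or.inl h1, h2⟩⟩
  rintro ⟨a, r, h1 | rfl, h2, rfl⟩
  · exact ⟨a, r, h1, h2, rfl⟩
  · rcases A.tail_shift h2 with rfl | k | ⟨u', k, rfl⟩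
    · obtain ⟨q, z, hJ, h⟩ := h
      obtain ⟨m, u, k1, k2, k3⟩ := A.tail_of_acc h
      refine ⟨_, u, Or.inr (Or.inr ⟨q, z, hJ, rfl⟩), k2, ?_⟩
      rw [append_assoc, k3, ← pw_add, ← pw_one, ← pw_add]
      congr 1; omega
    · exact ⟨[], _, Or.inl rfl, k, rfl⟩
    · exact ⟨_, u', Or.inr (Or.inl rfl), k, by simp [pw]⟩

lemma full_one (J : Q → ℕ → Prop) (w : List ℕ) :
    A.Full (A.S1 J) w (pw A.N (2 * w.length + 1 + 1)) := ⟨_, _, Or.inr rfl, A.tail_pw w, rfl⟩

lemma full_two {J : Q → ℕ → Prop} {w : List ℕ}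
    (h : A.Full (A.S2 J) w (pw A.N (2 * w.length + 1 + 1))) : ∃ q z, J q z ∧ Acc A.δ A.F q w z := by
  obtain ⟨a, r, rfl | rfl | ⟨q, z, hJ, rfl⟩, h2, e⟩ := h
  · rcases A.decode h2 (j := 0) e.symm with k | ⟨q, k, -⟩
    · omega
    · exact absurd k (A.pos q).ne
  · obtain ⟨m, k1, k2⟩ := strip_pw e.symm
    rcases A.decode h2 (j := 0) k2 with k | ⟨q, k, -⟩
    · omega
    · exact absurd k (A.pos q).ne
  · rw [append_assoc] at e
    obtain ⟨m, k1, k2⟩ := strip_pw e.symm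
    rcases A.decode h2 k2 with k | ⟨q', k, k3⟩
    · exact absurd k.1 (A.pos q).ne'
    · obtain rfl := A.inj k
      refine ⟨q, z, hJ, ?_⟩
      convert k3 using 1
      omega

end WA

end Pool.Agent.MP_dd548e_lc

end

section

namespace Pool.Agent.MP_dd548e_lc

open List Relation

/-- one parallel derivation step -/
def Der (R : ℕ → List ℕ → Prop) (w w' : List ℕ) : Prop :=
  ∃ ws : List (List ℕ), Forall₂ R w ws ∧ w' = ws.flatten

/-- derivation sequences -/
def Seqs (R : ℕ → List ℕ → Prop) (ω : List ℕ) : Set (ℕ → List ℕ) :=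
  {s | s 0 = ω ∧ ∀ n, Der R (s n) (s (n + 1))}

lemma der_nil (R : ℕ → List ℕ → Prop) (w' : List ℕ) : Der R [] w' ↔ w' = [] := by simp [Der]

lemma der_cons (R : ℕ → List ℕ → Prop) (a : ℕ) (w w' : List ℕ) :
    Der R (a :: w) w' ↔ ∃ u r, R a u ∧ Der R w r ∧ w' = u ++ r := by
  constructor
  · rintro ⟨ws, h, rfl⟩
    cases h with
    | cons h1 h2 => exact ⟨_, _, h1, ⟨_, h2, rfl⟩, by simp⟩
  · rintro ⟨u, _, h1, ⟨ws, h2, rfl⟩, rfl⟩
    exact ⟨u :: ws, Forall₂.cons h1 h2, by simp⟩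

lemma seqs_eq {R1 R2 : ℕ → List ℕ → Prop} {ω : List ℕ} {P : List ℕ → Prop} (h0 : P ω)
    (h1 : ∀ w w', P w → Der R1 w w' → P w') (h2 : ∀ w w', P w → (Der R1 w w' ↔ Der R2 w w')) :
    Seqs R1 ω = Seqs R2 ω := by
  ext s
  constructor
  · rintro ⟨k0, k⟩
    have : ∀ n, P (s n) := fun n => by
      induction n with
      | zero => exact k0 ▸ h0
      | succ n ih => exact h1 _ _ ih (k n)
    exact ⟨k0, fun n => (h2 _ _ (this n)).1 (k n)⟩
  · rintro ⟨k0, k⟩
    have : ∀ n, P (s n) := fun n => by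
      induction n with
      | zero => exact k0 ▸ h0
      | succ n ih => exact h1 _ _ ih ((h2 _ _ ih).2 (k n))
    exact ⟨k0, fun n => (h2 _ _ (this n)).2 (k n)⟩

lemma seqs_cons {R : ℕ → List ℕ → Prop} {a b : List ℕ} (h : Der R a b) {s : ℕ → List ℕ}
    (hs : s ∈ Seqs R b) : (fun n => Nat.casesOn n a s) ∈ Seqs R a := by
  refine ⟨rfl, fun n => ?_⟩
  cases n with
  | zero => exact (show Der R a (s 0) from hs.1.symm ▸ h)
  | succ n => exact hs.2 n

lemma seqs_ne {R1 R2 : ℕ → List ℕ → Prop} {ω a b : List ℕ} {P : List ℕ → Prop} (h0 : P b)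
    (h1 : ∀ w, P w → ∃ w', Der R1 w w' ∧ P w') (hr : ReflTransGen (Der R1) ω a)
    (hab : Der R1 a b) (hn : ¬ Der R2 a b) : Seqs R1 ω ≠ Seqs R2 ω := by
  have key : ∃ s ∈ Seqs R1 ω, ∃ k, s k = a ∧ s (k + 1) = b := by
    induction hr using ReflTransGen.head_induction_on with
    | refl =>
      choose f hf1 hf2 using h1
      let g : {w // P w} → {w // P w} := fun w => ⟨f w.1 w.2, hf2 w.1 w.2⟩
      have : (fun n => (g^[n] ⟨b, h0⟩).1) ∈ Seqs R1 b := by
        refine ⟨rfl, fun n => ?_⟩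
        simp only [Function.iterate_succ_apply']
        exact hf1 _ _
      exact ⟨_, seqs_cons hab this, 0, rfl, rfl⟩
    | head h _ ih =>
      obtain ⟨s, hs, k, k1, k2⟩ := ih
      exact ⟨_, seqs_cons h hs, k + 1, k1, k2⟩
  obtain ⟨s, hs, k, rfl, rfl⟩ := key
  intro e
  rw [e] at hs
  exact hn (hs.2 k)

/-- `u'` is obtained from `u` by choosing a type for every letter `3` -/
def Mark (M : ℕ) (u' u : List ℕ) : Prop := u'.map (fun l => min l 3) = u ∧ ∀ l ∈ u', l < M + 4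

lemma mark_nil {M : ℕ} {u' : List ℕ} : Mark M u' [] ↔ u' = [] := by
  refine ⟨fun h => map_eq_nil_iff.1 h.1, ?_⟩
  rintro rfl
  simp [Mark]

lemma mark_append {M : ℕ} {u' a r : List ℕ} :
    Mark M u' (a ++ r) ↔ ∃ a' r', Mark M a' a ∧ Mark M r' r ∧ u' = a' ++ r' := by
  constructor
  · rintro ⟨h1, h2⟩
    obtain ⟨a', r', rfl, k1, k2⟩ := map_eq_append_iff.1 h1
    rw [forall_mem_append] at h2
    exact ⟨a', r', ⟨k1, h2.1⟩, ⟨k2, h2.2⟩, rfl⟩
  · rintro ⟨a', r', ⟨rfl, h1⟩, ⟨rfl, h2⟩, rfl⟩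
    exact ⟨map_append, forall_mem_append.2 ⟨h1, h2⟩⟩

lemma mark_self {M : ℕ} {u : List ℕ} (h : ∀ l ∈ u, l = 2 ∨ l = 3) : Mark M u u := by
  refine ⟨?_, fun l hl => by rcases h l hl with h | h <;> omega⟩
  conv_rhs => rw [← map_id u]
  exact map_congr_left fun l hl => by rcases h l hl with h | h <;> simp [h]

lemma mark_rep {M j : ℕ} {u' : List ℕ} : Mark M u' (replicate j 2) ↔ u' = replicate j 2 := by
  refine ⟨fun h => ?_, ?_⟩
  · obtain ⟨h1, h2⟩ := eq_replicate_iff.1 h.1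
    refine eq_replicate_iff.2 ⟨by simpa using h1, fun b hb => ?_⟩
    have := h2 _ (mem_map_of_mem hb)
    omega
  · rintro rfl
    exact mark_self fun l hl => Or.inl (mem_replicate.1 hl).2

lemma mark_three {M : ℕ} {u' : List ℕ} : Mark M u' [3] ↔ ∃ j < M + 1, u' = [j + 3] := by
  constructor
  · rintro ⟨h1, h2⟩
    obtain ⟨l, rfl, h⟩ := map_eq_singleton_iff.1 h1
    have := h2 l (mem_singleton_self l)
    exact ⟨l - 3, by omega, by congr 1; omega⟩
  · rintro ⟨j, hj, rfl⟩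
    exact ⟨by simp, by simp; omega⟩

lemma mark_finite (M : ℕ) (u : List ℕ) : {u' | Mark M u' u}.Finite := by
  induction u with
  | nil => simp [mark_nil]
  | cons a u ih =>
    refine (Set.Finite.image2 List.cons (Set.finite_lt_nat (M + 4)) ih).subset ?_
    rintro u' ⟨h1, h2⟩
    obtain ⟨l, t, rfl, -, k⟩ := map_eq_cons_iff.1 h1
    exact ⟨l, h2 l mem_cons_self, t, ⟨k, fun x hx => h2 x (mem_cons_of_mem _ hx)⟩, rfl⟩

/-- words over the inner alphabet -/
def Good (M : ℕ) (b : List ℕ) : Prop := ∀ l ∈ b, 2 ≤ l ∧ l < M + 4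

lemma Mark.good {M : ℕ} {u' u : List ℕ} (h : Mark M u' u) (hu : ∀ l ∈ u, l = 2 ∨ l = 3) :
    Good M u' := by
  intro l hl
  have := hu (min l 3) (h.1 ▸ mem_map_of_mem hl)
  exact ⟨by omega, h.2 l hl⟩

/-- the types of the live letters -/
def live (b : List ℕ) : List ℕ := b.filterMap fun l => if 4 ≤ l then some (l - 4) else none

lemma live_lt {M : ℕ} {b : List ℕ} (h : Good M b) : ∀ o ∈ live b, o < M := by
  intro o ho
  obtain ⟨l, hl, k⟩ := mem_filterMap.1 ho
  have := h l hl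
  split_ifs at k
  simp only [Option.some.injEq] at k
  omega

lemma live_dead {b : List ℕ} (h : ∀ l ∈ b, l = 2 ∨ l = 3) : live b = [] := by
  rw [live, filterMap_eq_nil_iff]
  intro l hl
  rcases h l hl with h | h <;> simp [h]

lemma exists_mark (N M : ℕ) (w : List ℕ) (hw : ∀ o ∈ w, o < M) (k : ℕ) :
    ∃ u', Mark M u' (pw N (w.length + k)) ∧ live u' = w := by
  induction w with
  | nil => exact ⟨_, mark_self pw_letters, live_dead pw_letters⟩
  | cons o w ih =>
    obtain ⟨u', h1, h2⟩ := ih fun o ho => hw o (mem_cons_of_mem _ ho)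
    refine ⟨(replicate N 2 ++ [o + 1 + 3]) ++ u', ?_, ?_⟩
    · rw [length_cons, show w.length + 1 + k = (w.length + k) + 1 by omega, pw]
      refine mark_append.2 ⟨_, _, mark_append.2 ⟨_, _, mark_rep.2 rfl,
        mark_three.2 ⟨o + 1, ?_, rfl⟩, rfl⟩, h1, rfl⟩
      have := hw o mem_cons_self
      omega
    · have : live (replicate N 2) = [] := live_dead fun l hl => Or.inl (mem_replicate.1 hl).2
      simp only [live, filterMap_append] at this h2 ⊢
      simp [this, h2]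

namespace WA

variable {Q : Type} (A : WA Q) (M : ℕ)

/-- the rules of the OL system with start words `S` -/
def Rule (S : List ℕ → Prop) (l : ℕ) (u' : List ℕ) : Prop :=
  (l = 0 ∧ ∃ a a', S a ∧ Mark M a' a ∧ u' = 0 :: a') ∨
  (l = 1 ∧ ∃ c c', A.C c ∧ Mark M c' c ∧ u' = c' ++ [1]) ∨
  ((l = 2 ∨ l = 3) ∧ u' = []) ∨
  ∃ o < M, l = o + 4 ∧ ∃ b, A.B o b ∧ Mark M u' b

lemma der_tail (S : List ℕ → Prop) {b : List ℕ} (hb : Good M b) (w' : List ℕ) :
    Der (A.Rule M S) (b ++ [1]) w' ↔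
      ∃ r r', A.Tail (live b) r ∧ Mark M r' r ∧ w' = r' ++ [1] := by
  induction b generalizing w' with
  | nil => simp [der_cons, der_nil, Rule, live, Tail]
  | cons l b ih =>
    have hl := hb l mem_cons_self
    have hb' : Good M b := fun x hx => hb x (mem_cons_of_mem _ hx)
    rw [cons_append, der_cons]
    simp only [ih hb']
    by_cases h4 : 4 ≤ l
    · have e : live (l :: b) = (l - 4) :: live b := by simp [live, h4]
      rw [e]
      constructor
      · rintro ⟨u, _, h1, ⟨r, r', h2, h3, rfl⟩, rfl⟩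
        rcases h1 with h1 | h1 | h1 | ⟨o, -, rfl, x, h1, h5⟩
        · omega
        · omega
        · omega
        · exact ⟨x ++ r, u ++ r', ⟨x, r, by simpa using h1, h2, rfl⟩,
            mark_append.2 ⟨_, _, h5, h3, rfl⟩, by simp⟩
      · rintro ⟨_, r', ⟨x, r, h1, h2, rfl⟩, h3, rfl⟩
        obtain ⟨u, r'', h5, h6, rfl⟩ := mark_append.1 h3
        exact ⟨u, _, Or.inr (Or.inr (Or.inr ⟨l - 4, by omega, by omega, x, h1, h5⟩)),
          ⟨r, r'', h2, h6, rfl⟩, by simp⟩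
    · have e : live (l :: b) = live b := by simp [live, h4]
      rw [e]
      constructor
      · rintro ⟨u, _, h1, ⟨r, r', h2, h3, rfl⟩, rfl⟩
        rcases h1 with h1 | h1 | ⟨-, rfl⟩ | ⟨o, -, rfl, -⟩
        · omega
        · omega
        · exact ⟨r, r', h2, h3, rfl⟩
        · omega
      · rintro ⟨r, r', h2, h3, rfl⟩
        exact ⟨[], _, Or.inr (Or.inr (Or.inl ⟨by omega, rfl⟩)), ⟨r, r', h2, h3, rfl⟩, rfl⟩

lemma der_full (S : List ℕ → Prop) {b : List ℕ} (hb : Good M b) (w' : List ℕ) :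
    Der (A.Rule M S) (0 :: (b ++ [1])) w' ↔
      ∃ u u', A.Full S (live b) u ∧ Mark M u' u ∧ w' = 0 :: (u' ++ [1]) := by
  rw [der_cons]
  simp only [A.der_tail M S hb]
  constructor
  · rintro ⟨u, _, h1, ⟨r, r', h2, h3, rfl⟩, rfl⟩
    rcases h1 with ⟨-, a, a', h1, h4, rfl⟩ | h1 | h1 | ⟨o, -, h1, -⟩
    · exact ⟨a ++ r, a' ++ r', ⟨a, r, h1, h2, rfl⟩, mark_append.2 ⟨_, _, h4, h3, rfl⟩, by simp⟩
    · omega
    · omega
    · omega
  · rintro ⟨_, u', ⟨a, r, h1, h2, rfl⟩, h3, rfl⟩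
    obtain ⟨a', r', h4, h5, rfl⟩ := mark_append.1 h3
    exact ⟨_, _, Or.inl ⟨rfl, a, a', h1, h4, rfl⟩, ⟨r, r', h2, h5, rfl⟩, by simp⟩

lemma full_letters {J : Q → ℕ → Prop} {w u : List ℕ} (h : A.Full (A.S1 J) w u) :
    ∀ l ∈ u, l = 2 ∨ l = 3 := by
  obtain ⟨a, r, h1, h2, rfl⟩ := h
  exact forall_mem_append.2 ⟨A.S1_letters h1, A.tail_letters h2⟩

lemma reach (J : Q → ℕ → Prop) (w : List ℕ) (hw : ∀ o ∈ w, o < M) :
    ∃ b, Good M b ∧ live b = w ∧
      ReflTransGen (Der (A.Rule M (A.S1 J))) [0, 1] (0 :: (b ++ [1])) := by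
  induction w with
  | nil => exact ⟨[], by simp [Good], rfl, ReflTransGen.refl⟩
  | cons o w ih =>
    obtain ⟨b, h1, h2, h3⟩ := ih fun o ho => hw o (mem_cons_of_mem _ ho)
    obtain ⟨u', k1, k2⟩ := exists_mark A.N M (o :: w) hw w.length
    refine ⟨u', k1.good pw_letters, k2, h3.tail ((A.der_full M _ h1 _).2 ⟨_, u', ?_, k1, rfl⟩)⟩
    rw [h2, show (o :: w).length + w.length = 2 * w.length + 1 by rw [length_cons]; omega]
    exact ⟨[], _, Or.inl (Or.inl rfl), A.tail_pw w, rfl⟩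

theorem seqs_eq_iff (J : Q → ℕ → Prop) :
    Seqs (A.Rule M (A.S1 J)) [0, 1] = Seqs (A.Rule M (A.S2 J)) [0, 1] ↔
      ∀ w : List ℕ, (∀ o ∈ w, o < M) → ∃ q z, J q z ∧ Acc A.δ A.F q w z := by
  constructor
  · intro e w hw
    by_contra hn
    obtain ⟨b, h1, rfl, h3⟩ := A.reach M J w hw
    refine seqs_ne (P := fun w => ∃ b, Good M b ∧ w = 0 :: (b ++ [1]))
      ⟨_, (mark_self pw_letters).good pw_letters, rfl⟩ ?_ h3
      ((A.der_full M _ h1 _).2 ⟨_, _, A.full_one J _, mark_self pw_letters, rfl⟩) ?_ e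
    · rintro _ ⟨b, hb, rfl⟩
      exact ⟨_, (A.der_full M _ hb _).2 ⟨_, _, A.full_one J _, mark_self pw_letters, rfl⟩,
        _, (mark_self pw_letters).good pw_letters, rfl⟩
    · rw [A.der_full M _ h1]
      rintro ⟨u, u', k1, k2, k3⟩
      obtain rfl : pw A.N (2 * (live b).length + 1 + 1) = u' := by simpa using k3
      obtain rfl : pw A.N (2 * (live b).length + 1 + 1) = u :=
        (mark_self (M := M) pw_letters).1.symm.trans k2.1
      exact hn (A.full_two k1)
  · intro h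
    refine seqs_eq (P := fun w => ∃ b, Good M b ∧ w = 0 :: (b ++ [1]))
      ⟨[], by simp [Good], rfl⟩ ?_ ?_
    · rintro _ w' ⟨b, hb, rfl⟩ k
      obtain ⟨u, u', k1, k2, rfl⟩ := (A.der_full M _ hb _).1 k
      exact ⟨u', k2.good (A.full_letters k1), rfl⟩
    · rintro _ w' ⟨b, hb, rfl⟩
      simp only [A.der_full M _ hb, A.full_iff (h _ (live_lt hb))]

lemma rule_total (S : List ℕ → Prop) (hS : S []) (l : ℕ) (hl : l < M + 4) :
    ∃ u, A.Rule M S l u := by
  by_cases h4 : 4 ≤ l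
  · exact ⟨_, Or.inr (Or.inr (Or.inr ⟨l - 4, by omega, by omega, _, Or.inr (Or.inr rfl),
      mark_self pw_letters⟩))⟩
  · have : l = 0 ∨ l = 1 ∨ (l = 2 ∨ l = 3) := by omega
    rcases this with h | h | h
    · exact ⟨_, Or.inl ⟨h, [], [], hS, mark_nil.2 rfl, rfl⟩⟩
    · exact ⟨_, Or.inr (Or.inl ⟨h, _, _, Or.inr (Or.inr rfl), mark_self A.blk_letters, rfl⟩)⟩
    · exact ⟨_, Or.inr (Or.inr (Or.inl ⟨h, rfl⟩))⟩

lemma rule_letters {S : List ℕ → Prop} {l : ℕ} {u : List ℕ} (h : A.Rule M S l u) :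
    ∀ x ∈ u, x < M + 4 := by
  rcases h with ⟨-, a, a', -, h, rfl⟩ | ⟨-, c, c', -, h, rfl⟩ | ⟨-, rfl⟩ | ⟨o, -, -, b, -, h⟩
  · exact forall_mem_cons.2 ⟨by omega, h.2⟩
  · exact forall_mem_append.2 ⟨h.2, by simp⟩
  · simp
  · exact h.2

lemma rule_finite [Finite Q] (hδ : ∀ q o t q', A.δ q o t q' → t ≤ 2) {S : List ℕ → Prop}
    (hS : {u | S u}.Finite) : {p : ℕ × List ℕ | A.Rule M S p.1 p.2}.Finite := by
  have hm : ∀ T : Set (List ℕ), T.Finite → {u' | ∃ u ∈ T, Mark M u' u}.Finite := by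
    intro T hT
    refine (hT.biUnion fun u _ => mark_finite M u).subset ?_
    rintro u' ⟨u, h1, h2⟩
    exact Set.mem_biUnion h1 h2
  have hC0 : {u | A.C0 u}.Finite := (Set.finite_range A.be).subset (by
    rintro _ ⟨q, -, rfl⟩; exact ⟨q, rfl⟩)
  have hC : {u | A.C u}.Finite :=
    (hC0.union ((hC0.image (blk A.N ++ ·)).union (Set.finite_singleton (blk A.N)))).subset (by
      rintro u (h | ⟨u0, h, rfl⟩ | rfl)
      exacts [Or.inl h, Or.inr (Or.inl ⟨u0, h, rfl⟩), Or.inr (Or.inr rfl)])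
  have hU : {u | ∃ o, A.U0 o u}.Finite :=
    (Set.finite_range fun x : Q × Fin 3 × Q => A.be x.1 ++ (pw A.N x.2.1 ++ A.al x.2.2)).subset (by
      rintro _ ⟨o, q, t, q', h, rfl⟩
      exact ⟨(q, ⟨t, Nat.lt_succ_of_le (hδ _ _ _ _ h)⟩, q'), rfl⟩)
  have hB : {u | ∃ o, A.B o u}.Finite :=
    (hU.union ((hU.image (blk A.N ++ ·)).union (Set.finite_singleton (pw A.N 2)))).subset (by
      rintro u ⟨o, h | ⟨u0, h, rfl⟩ | rfl⟩
      exacts [Or.inl ⟨o, h⟩, Or.inr (Or.inl ⟨u0, ⟨o, h⟩, rfl⟩), Or.inr (Or.inr rfl)])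
  refine ((Set.finite_lt_nat (M + 4)).prod (((hm _ hS).image (0 :: ·)).union
    (((hm _ hC).image (· ++ [1])).union ((hm _ hB).insert [])))).subset ?_
  rintro ⟨l, u⟩ h
  rcases h with ⟨h0, a, a', h1, h, rfl⟩ | ⟨h0, c, c', h1, h, rfl⟩ | ⟨h0, rfl⟩ |
    ⟨o, ho, h0, b, h1, h⟩
  · exact ⟨by simp only [Set.mem_ofPred_eq] at h0 ⊢; omega, Or.inl ⟨a', ⟨a, h1, h⟩, rfl⟩⟩
  · exact ⟨by simp only [Set.mem_ofPred_eq] at h0 ⊢; omega,
      Or.inr (Or.inl ⟨c', ⟨c, h1, h⟩, rfl⟩)⟩
  · exact ⟨by simp only [Set.mem_ofPred_eq] at h0 ⊢; omega, Or.inr (Or.inr (Or.inl rfl))⟩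
  · exact ⟨by simp only [Set.mem_ofPred_eq] at h0 ⊢; omega,
      Or.inr (Or.inr (Or.inr ⟨b, ⟨o, h1⟩, h⟩))⟩

end WA

/-- all markings of a power of the block -/
def marks (N M : ℕ) (k : ℕ) : List (List ℕ) :=
  Nat.rec [[]] (fun _ l => l.flatMap fun u => (range (M + 1)).map fun j =>
    replicate N 2 ++ (j + 3) :: u) k

lemma mem_marks {N M k : ℕ} {u' : List ℕ} : u' ∈ marks N M k ↔ Mark M u' (pw N k) := by
  induction k generalizing u' with
  | zero => simp [marks, pw, mark_nil]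
  | succ k ih =>
    have : marks N M (k + 1) = (marks N M k).flatMap fun u => (range (M + 1)).map fun j =>
      replicate N 2 ++ (j + 3) :: u := rfl
    simp only [this, mem_flatMap, mem_map, mem_range, ih, pw, blk, mark_append, mark_rep,
      mark_three]
    constructor
    · rintro ⟨u, h1, j, h2, rfl⟩
      exact ⟨_, u, ⟨_, _, rfl, ⟨j, h2, rfl⟩, rfl⟩, h1, by simp⟩
    · rintro ⟨_, u, ⟨_, _, rfl, ⟨j, h2, rfl⟩, rfl⟩, h1, rfl⟩
      exact ⟨u, h1, j, h2, by simp⟩

lemma primrec_marks (N M : ℕ) : Primrec (marks N M) := by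
  refine Primrec.nat_rec₁ _ (Primrec.list_flatMap Primrec.snd
    (Primrec.list_map (Primrec.const _) ?_))
  exact Primrec.list_append.comp (Primrec.const _) (Primrec.list_cons.comp
    (Primrec.nat_add.comp Primrec.snd (Primrec.const 3)) (Primrec.snd.comp Primrec.fst))

/-- start rules for one initial configuration -/
def startRules (N M : ℕ) (x : List ℕ) (z : ℕ) : List (ℕ × List ℕ) :=
  (marks N M (z + 1)).map fun u => (0, 0 :: (u ++ x))

lemma primrec_startRules (N M : ℕ) (x : List ℕ) : Primrec (startRules N M x) :=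
  Primrec.list_map ((primrec_marks N M).comp Primrec.succ) ((Primrec.const 0).pair
    (Primrec.list_cons.comp (Primrec.const 0)
      (Primrec.list_append.comp Primrec.snd (Primrec.const x))))

lemma mem_startRules {N M j z l : ℕ} {u : List ℕ} : (l, u) ∈ startRules N M (replicate j 2) z ↔
    l = 0 ∧ ∃ a', Mark M a' (pw N (z + 1) ++ replicate j 2) ∧ u = 0 :: a' := by
  simp only [startRules, mem_map, mem_marks, mark_append, mark_rep, Prod.mk.injEq]
  constructor
  · rintro ⟨a, h, rfl, rfl⟩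
    exact ⟨rfl, _, ⟨a, _, h, rfl, rfl⟩, rfl⟩
  · rintro ⟨rfl, _, ⟨a, _, h, rfl, rfl⟩, rfl⟩
    exact ⟨a, h, rfl, rfl⟩

theorem exists_reduction : ∃ (R₁ R₂ : ℕ → List (ℕ × List ℕ)), Primrec R₁ ∧ Primrec R₂ ∧
    (∀ n a, (a ∈ [0, 1] ∨ ∃ p ∈ R₁ n, a ∈ p.2) → ∃ w, (a, w) ∈ R₁ n) ∧
    (∀ n a, (a ∈ [0, 1] ∨ ∃ p ∈ R₂ n, a ∈ p.2) → ∃ w, (a, w) ∈ R₂ n) ∧
    ¬ ComputablePred fun n => ¬ (Seqs (fun a w => (a, w) ∈ R₁ n) [0, 1] =
      Seqs (fun a w => (a, w) ∈ R₂ n) [0, 1]) := by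
  obtain ⟨Q, _, δ, F, M, I, qA, qB, -, hδ, hc⟩ := exists_automaton
  obtain ⟨N, ⟨e⟩⟩ := Finite.exists_equiv_fin Q
  let A : WA Q := ⟨δ, F, N, fun q => e q + 1, fun q q' h => e.injective (Fin.ext (by simpa using h)),
    fun q => Nat.succ_pos _, fun q => (e q).2⟩
  let J0 : Q → ℕ → Prop := fun q z => I q ∧ z = 0
  let J : ℕ → Q → ℕ → Prop := fun n q z => J0 q z ∨ (q = qA ∧ z = n) ∨ (q = qB ∧ z < n)
  have hS2 : {u | A.S2 J0 u}.Finite :=
    (((Set.finite_range fun q => pw N 1 ++ A.al q).insert (pw N 2)).insert []).subset (by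
      rintro u (rfl | rfl | ⟨q, z, ⟨-, rfl⟩, rfl⟩)
      exacts [Or.inl rfl, Or.inr (Or.inl rfl), Or.inr (Or.inr ⟨q, rfl⟩)])
  have hS1 : {u | A.S1 J0 u}.Finite := hS2.union (Set.finite_singleton (blk N))
  let ext : ℕ → List (ℕ × List ℕ) := fun n =>
    startRules N M (A.al qA) n ++ (range n).flatMap (startRules N M (A.al qB))
  have hext : Primrec ext := Primrec.list_append.comp (primrec_startRules _ _ _)
    (Primrec.list_flatMap Primrec.list_range ((primrec_startRules _ _ _).comp Primrec.snd))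
  have key : ∀ (S0 : List ℕ → Prop) (hS : {u | S0 u}.Finite), ∃ R : ℕ → List (ℕ × List ℕ),
      Primrec R ∧ ∀ n, (fun a w => (a, w) ∈ R n) = A.Rule M fun u => S0 u ∨
        u = pw N (n + 1) ++ A.al qA ∨ ∃ z < n, u = pw N (z + 1) ++ A.al qB := by
    intro S0 hS
    refine ⟨fun n => (A.rule_finite M hδ hS).toFinset.toList ++ ext n,
      Primrec.list_append.comp (Primrec.const _) hext, fun n => ?_⟩
    funext l u
    simp only [ext, mem_append, Finset.mem_toList, Set.Finite.mem_toFinset, Set.mem_ofPred_eq,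
      mem_flatMap, mem_range, WA.al, mem_startRules, WA.Rule, eq_iff_iff]
    constructor
    · rintro ((⟨h0, a, a', h1, h2⟩ | h) | ⟨h0, a', h⟩ | ⟨z, hz, h0, a', h⟩)
      · exact Or.inl ⟨h0, a, a', Or.inl h1, h2⟩
      · exact Or.inr h
      · exact Or.inl ⟨h0, _, a', Or.inr (Or.inl rfl), h⟩
      · exact Or.inl ⟨h0, _, a', Or.inr (Or.inr ⟨z, hz, rfl⟩), h⟩
    · rintro (⟨h0, a, a', h1 | rfl | ⟨z, hz, rfl⟩, h2⟩ | h)
      · exact Or.inl (Or.inl ⟨h0, a, a', h1, h2⟩)
      · exact Or.inr (Or.inl ⟨h0, a', h2⟩)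
      · exact Or.inr (Or.inr ⟨z, hz, h0, a', h2⟩)
      · exact Or.inl (Or.inr h)
  have e2 : ∀ n, (fun u => A.S2 J0 u ∨ u = pw N (n + 1) ++ A.al qA ∨
      ∃ z < n, u = pw N (z + 1) ++ A.al qB) = A.S2 (J n) := by
    intro n
    funext u
    apply propext
    constructor
    · rintro ((h | h | ⟨q, z, h, h'⟩) | h | ⟨z, hz, h⟩)
      exacts [Or.inl h, Or.inr (Or.inl h), Or.inr (Or.inr ⟨q, z, Or.inl h, h'⟩),
        Or.inr (Or.inr ⟨_, _, Or.inr (Or.inl ⟨rfl, rfl⟩), h⟩),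
        Or.inr (Or.inr ⟨_, _, Or.inr (Or.inr ⟨rfl, hz⟩), h⟩)]
    · rintro (h | h | ⟨q, z, h | ⟨rfl, rfl⟩ | ⟨rfl, hz⟩, h'⟩)
      exacts [Or.inl (Or.inl h), Or.inl (Or.inr (Or.inl h)),
        Or.inl (Or.inr (Or.inr ⟨q, z, h, h'⟩)), Or.inr (Or.inl h'), Or.inr (Or.inr ⟨z, hz, h'⟩)]
  have e1 : ∀ n, (fun u => A.S1 J0 u ∨ u = pw N (n + 1) ++ A.al qA ∨
      ∃ z < n, u = pw N (z + 1) ++ A.al qB) = A.S1 (J n) := by
    intro n
    funext u
    rw [WA.S1, WA.S1, ← e2 n]
    exact propext or_right_comm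
  obtain ⟨R₁, p1, h1⟩ := key _ hS1
  obtain ⟨R₂, p2, h2⟩ := key _ hS2
  simp only [e1] at h1
  simp only [e2] at h2
  have tot : ∀ (R : List (ℕ × List ℕ)) (S : List ℕ → Prop), S [] →
      (fun a w => (a, w) ∈ R) = A.Rule M S →
      ∀ a, (a ∈ [0, 1] ∨ ∃ p ∈ R, a ∈ p.2) → ∃ w, (a, w) ∈ R := by
    intro R S hS h a ha
    have h' : ∀ a w, (a, w) ∈ R ↔ A.Rule M S a w := fun a w => by rw [← h]
    simp only [h']
    refine A.rule_total M S hS a ?_
    rcases ha with ha | ⟨p, hp, ha⟩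
    · simp only [mem_cons, not_mem_nil, or_false] at ha
      omega
    · exact A.rule_letters M ((h' p.1 p.2).1 hp) a ha
  refine ⟨R₁, R₂, p1, p2, fun n => tot _ _ (Or.inl (Or.inl rfl)) (h1 n),
    fun n => tot _ _ (Or.inl rfl) (h2 n), ?_⟩
  convert hc using 3 with n
  rw [h1, h2, A.seqs_eq_iff]
  simp only [not_forall, exists_prop]
  refine exists_congr fun w => and_congr_right fun _ => not_congr ⟨?_, ?_⟩
  · rintro ⟨q, z, ⟨h, rfl⟩ | ⟨rfl, rfl⟩ | ⟨rfl, hz⟩, k⟩
    exacts [Or.inl ⟨q, h, k⟩, Or.inr (Or.inl k), Or.inr (Or.inr ⟨z, hz, k⟩)]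
  · rintro (⟨q, h, k⟩ | k | ⟨z, hz, k⟩)
    exacts [⟨q, 0, Or.inl ⟨h, rfl⟩, k⟩, ⟨_, _, Or.inr (Or.inl ⟨rfl, rfl⟩), k⟩,
      ⟨_, _, Or.inr (Or.inr ⟨rfl, hz⟩), k⟩]

end Pool.Agent.MP_dd548e_lc

end
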